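import Pool.Agent.H72.BF.Targets
import Pool.Agent.H72.BF.Targets5
import Pool.Agent.H29.BF.QPF

open Finset Filter
open Pool.Agent.H72.BF

namespace Pool.Agent.H62.BF

/-- pigeonhole along an ultrafilter -/
theorem ultra_pigeon {ι : Type} [Finite ι] (p : ι → ℕ → Prop) (h : ∀ j, ∃ i, p i j) :
    ∃ i, ∀ᶠ j in (hyperfilter ℕ : Filter ℕ), p i j := by
  by_contra hcon
  push Not at hcon
  have h1 : ∀ i, ∀ᶠ j in (hyperfilter ℕ : Filter ℕ), ¬ p i j := by
    intro i
    exact Ultrafilter.eventually_not.mpr (by simpa using hcon i)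
  obtain ⟨j, hj⟩ := (Filter.eventually_all.mpr h1).exists
  obtain ⟨i, hi⟩ := h j
  exact hj i hi

/-- sequences of integer vectors without small coverings have residues without small coverings -/
theorem colour_core (hMNR : T_MNR) (r M s N : ℕ) {H : ℕ → ℝ} (P : Pkg H)
    (v : ℕ → Fin N → Fin M → ℤ) (hB : ∀ i k, P.Bd (fun j => v j i k))
    (W : Fin s → Submodule P.kb (Fin M → P.kb)) (hWd : ∀ i, Module.finrank P.kb (W i) ≤ r)
    (β : Fin N → Fin M → P.kb)
    (hβ : ∀ i k, algebraMap P.kb P.F (β i k) = P.evZ (fun j => v j i k))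
    (hW : ∀ i, ∃ l, β i ∈ W l)
    (hcov : ∀ j, ∀ U : Fin s → Submodule ℚ (Fin M → ℚ), (∀ l, Module.finrank ℚ (U l) ≤ r) →
      ∃ i, ∀ l, (fun k => (v j i k : ℚ)) ∉ U l) : False := by
  classical
  choose c hc using hW
  -- independent vectors of the same colour
  have hstep : ∀ j, ∃ f : Fin s × (Fin (r + 1) → Fin N), (∀ x, c (f.2 x) = f.1) ∧
      LinearIndependent ℚ (fun (x : Fin (r + 1)) (k : Fin M) => (v j (f.2 x) k : ℚ)) := by
    intro j
    by_contra hno
    push Not at hno
    obtain ⟨i, hi⟩ := hcov j (fun l => Submodule.span ℚ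
      (Set.range (fun x : {i : Fin N // c i = l} => fun k => (v j x.1 k : ℚ)))) (by
      intro l
      by_contra hbig
      push Not at hbig
      obtain ⟨κ, a, ha, hsp, hli'⟩ := exists_linearIndependent' ℚ
        (fun x : {i : Fin N // c i = l} => fun k : Fin M => (v j x.1 k : ℚ))
      have : Finite κ := Finite.of_injective a ha
      have : Fintype κ := Fintype.ofFinite κ
      rw [← hsp, finrank_span_eq_card hli'] at hbig
      have he : Nonempty (Fin (r + 1) ↪ κ) := by
        rw [Function.Embedding.nonempty_iff_card_le, Fintype.card_fin]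
        omega
      obtain ⟨e⟩ := he
      exact hno (l, fun x => (a (e x)).1) (fun x => (a (e x)).2)
        (hli'.comp e e.injective))
    exact hi (c i) (Submodule.subset_span ⟨⟨i, rfl⟩, rfl⟩)
  obtain ⟨⟨l, f⟩, hf⟩ := ultra_pigeon (ι := Fin s × (Fin (r + 1) → Fin N))
    (fun f j => (∀ x, c (f.2 x) = f.1) ∧
      LinearIndependent ℚ (fun (x : Fin (r + 1)) (k : Fin M) => (v j (f.2 x) k : ℚ))) hstep
  obtain ⟨j0, hj0⟩ := hf.exists
  have hcf : ∀ x, c (f x) = l := hj0.1
  let V : ℕ → Fin (r + 1) → Fin M → ℤ := fun j =>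
    if LinearIndependent ℚ (fun (x : Fin (r + 1)) (k : Fin M) => (v j (f x) k : ℚ)) then
      (fun x => v j (f x)) else (fun x => v j0 (f x))
  have hVli : ∀ j, LinearIndependent ℚ (fun (x : Fin (r + 1)) (k : Fin M) =>
      (V j x k : ℚ)) := by
    intro j
    by_cases h : LinearIndependent ℚ
        (fun (x : Fin (r + 1)) (k : Fin M) => (v j (f x) k : ℚ))
    · simp only [V, if_pos h]; exact h
    · simp only [V, if_neg h]; exact hj0.2
  have hVev : ∀ x k, P.ev (fun j => (v j (f x) k : ℂ)) = P.ev (fun j => (V j x k : ℂ)) ∧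
      (fun j => (V j x k : ℂ)) ∈ P.O := by
    intro x k
    refine P.ev_congr (hB (f x) k) ?_
    filter_upwards [hf] with j hj
    simp only [V, if_pos hj.2]
  have hM := hMNR H P (r + 1) (Fin M) V (fun x k => (hVev x k).2) hVli
  have hMβ : LinearIndependent P.kb (fun x : Fin (r + 1) => β (f x)) := by
    rw [Fintype.linearIndependent_iff] at hM ⊢
    intro g hg x
    have h1 := hM (fun x => algebraMap P.kb P.F (g x)) (by
      funext k
      have h3 := congrArg (algebraMap P.kb P.F) (congrFun hg k)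
      rw [Finset.sum_apply, map_sum] at h3
      rw [Finset.sum_apply]
      rw [Pi.zero_apply, map_zero] at h3
      rw [Pi.zero_apply, ← h3]
      refine Finset.sum_congr rfl fun x _ => ?_
      rw [Pi.smul_apply, Pi.smul_apply, smul_eq_mul, smul_eq_mul, map_mul, hβ]
      congr 1
      exact (hVev x k).1.symm) x
    exact (map_eq_zero (algebraMap P.kb P.F)).1 h1
  have hmem : ∀ x, β (f x) ∈ W l := by
    intro x
    have := hc (f x)
    rwa [hcf x] at this
  have hli2 : LinearIndependent P.kb (fun x => (⟨β (f x), hmem x⟩ : W l)) :=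
    LinearIndependent.of_comp (W l).subtype hMβ
  have h1 := hli2.fintype_card_le_finrank
  rw [Fintype.card_fin] at h1
  have h2 := hWd l
  omega

/-- linear substitutions do not raise the degree -/
theorem totalDegree_aeval_le {K σ τ : Type} [Field K] [Fintype σ] (f : σ → MvPolynomial τ K)
    (hf : ∀ i, (f i).totalDegree ≤ 1) (Q : MvPolynomial σ K) :
    (MvPolynomial.aeval f Q).totalDegree ≤ Q.totalDegree := by
  rw [MvPolynomial.aeval_def, MvPolynomial.eval₂_eq']
  refine MvPolynomial.totalDegree_finsetSum_le fun m hm => ?_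
  refine le_trans (MvPolynomial.totalDegree_mul _ _) ?_
  rw [MvPolynomial.algebraMap_eq, MvPolynomial.totalDegree_C, zero_add]
  refine le_trans (MvPolynomial.totalDegree_finset_prod _ _) ?_
  refine le_trans ?_ (MvPolynomial.le_totalDegree hm)
  rw [Finsupp.sum_fintype _ _ (fun _ => rfl)]
  refine Finset.sum_le_sum fun i _ => ?_
  refine le_trans (MvPolynomial.totalDegree_pow _ _) ?_
  calc m i * (f i).totalDegree ≤ m i * 1 := Nat.mul_le_mul_left _ (hf i)
    _ = m i := Nat.mul_one _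

/-- relations after an affine substitution -/
theorem relD_comb {K F : Type} [Field K] [Field F] [Algebra K F] {t z : F} {d : ℕ}
    (h : RelD K t d z) (a b : K) (ha : a ≠ 0) :
    RelD K t d (algebraMap K F a * z - algebraMap K F b * t) := by
  obtain ⟨Q, hQ0, hQd, hQz⟩ := h
  let f : Fin 2 → MvPolynomial (Fin 2) K :=
    ![MvPolynomial.X 0, MvPolynomial.C a⁻¹ * (MvPolynomial.X 1 + MvPolynomial.C b *
      MvPolynomial.X 0)]
  let f' : Fin 2 → MvPolynomial (Fin 2) K :=
    ![MvPolynomial.X 0, MvPolynomial.C a * MvPolynomial.X 1 - MvPolynomial.C b *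
      MvPolynomial.X 0]
  have hCC : (MvPolynomial.C a⁻¹ * MvPolynomial.C a : MvPolynomial (Fin 2) K) = 1 := by
    rw [← map_mul, inv_mul_cancel₀ ha, map_one]
  have hinv : ∀ R : MvPolynomial (Fin 2) K, MvPolynomial.aeval f' (MvPolynomial.aeval f R) = R := by
    intro R
    have h1 : (MvPolynomial.aeval f').comp (MvPolynomial.aeval f) =
        AlgHom.id K (MvPolynomial (Fin 2) K) := by
      apply MvPolynomial.algHom_ext
      intro i
      rw [AlgHom.comp_apply, MvPolynomial.aeval_X, AlgHom.id_apply]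
      fin_cases i
      · change MvPolynomial.aeval f' (MvPolynomial.X 0) = MvPolynomial.X 0
        rw [MvPolynomial.aeval_X]
        rfl
      · change MvPolynomial.aeval f' (MvPolynomial.C a⁻¹ * (MvPolynomial.X 1 +
          MvPolynomial.C b * MvPolynomial.X 0)) = MvPolynomial.X 1
        rw [map_mul, map_add, map_mul, MvPolynomial.aeval_X, MvPolynomial.aeval_X,
          MvPolynomial.aeval_C, MvPolynomial.aeval_C]
        change MvPolynomial.C a⁻¹ * ((MvPolynomial.C a * MvPolynomial.X 1 -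
          MvPolynomial.C b * MvPolynomial.X 0) + MvPolynomial.C b * MvPolynomial.X 0) =
          MvPolynomial.X 1
        rw [sub_add_cancel, ← mul_assoc, hCC, one_mul]
    exact DFunLike.congr_fun h1 R
  refine ⟨MvPolynomial.aeval f Q, ?_, ?_, ?_⟩
  · intro h0
    apply hQ0
    rw [← hinv Q, h0, map_zero]
  · refine le_trans (totalDegree_aeval_le f ?_ Q) hQd
    intro i
    fin_cases i
    · exact (MvPolynomial.totalDegree_X _).le
    · change (MvPolynomial.C a⁻¹ * (MvPolynomial.X 1 + MvPolynomial.C b *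
        MvPolynomial.X 0) : MvPolynomial (Fin 2) K).totalDegree ≤ 1
      refine le_trans (MvPolynomial.totalDegree_mul _ _) ?_
      rw [MvPolynomial.totalDegree_C, zero_add]
      refine le_trans (MvPolynomial.totalDegree_add _ _) (max_le ?_ ?_)
      · exact (MvPolynomial.totalDegree_X _).le
      · refine le_trans (MvPolynomial.totalDegree_mul _ _) ?_
        rw [MvPolynomial.totalDegree_C, zero_add]
        exact (MvPolynomial.totalDegree_X _).le
  · have h2 : MvPolynomial.aeval ![t, algebraMap K F a * z - algebraMap K F b * t]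
        (MvPolynomial.aeval f Q) = MvPolynomial.aeval ![t, z] Q := by
      have h1 : (MvPolynomial.aeval ![t, algebraMap K F a * z - algebraMap K F b * t]).comp
          (MvPolynomial.aeval f) = (MvPolynomial.aeval ![t, z] : MvPolynomial (Fin 2) K →ₐ[K] F) := by
        apply MvPolynomial.algHom_ext
        intro i
        rw [AlgHom.comp_apply, MvPolynomial.aeval_X, MvPolynomial.aeval_X]
        fin_cases i
        · change MvPolynomial.aeval ![t, algebraMap K F a * z - algebraMap K F b * t]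
            (MvPolynomial.X 0) = t
          rw [MvPolynomial.aeval_X]
          rfl
        · change MvPolynomial.aeval ![t, algebraMap K F a * z - algebraMap K F b * t]
            (MvPolynomial.C a⁻¹ * (MvPolynomial.X 1 + MvPolynomial.C b * MvPolynomial.X 0)) = z
          rw [map_mul, map_add, map_mul, MvPolynomial.aeval_X, MvPolynomial.aeval_X,
            MvPolynomial.aeval_C, MvPolynomial.aeval_C]
          change algebraMap K F a⁻¹ * ((algebraMap K F a * z - algebraMap K F b * t) +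
            algebraMap K F b * t) = z
          rw [sub_add_cancel, ← mul_assoc, ← map_mul, inv_mul_cancel₀ ha, map_one, one_mul]
      exact DFunLike.congr_fun h1 Q
    rw [h2]
    exact hQz

/-- `w` is exceptional for `v` at height `H` and exponent `C` -/
def EB (d M : ℕ) (mu : Fin M → ℂ) (C H : ℝ) (v w : Fin M → ℤ) : Prop :=
  (∀ i, |(w i : ℝ)| ≤ H) ∧ ∃ P : MvPolynomial (Fin 2) ℤ, P ≠ 0 ∧ P.totalDegree ≤ d ∧
    (∀ m : Fin 2 →₀ ℕ, |((P.coeff m : ℤ) : ℝ)| ≤ H) ∧
    H ^ C * ‖MvPolynomial.aeval ![∑ j, (v j : ℂ) * mu j, ∑ j, (w j : ℂ) * mu j] P‖ < 1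

/-- reduction modulo `v` -/
def red {M : ℕ} (i0 : Fin (M + 1)) (v w : Fin (M + 1) → ℤ) (k : Fin M) : ℤ :=
  v i0 * w (i0.succAbove k) - w i0 * v (i0.succAbove k)

/-- failure at exponent `C` with pivot `i0` -/
def BadE (d M s N : ℕ) (mu : Fin (M + 1) → ℂ) (C : ℝ) (i0 : Fin (M + 1)) : Prop :=
  ∃ H : ℝ, 2 ≤ H ∧ ∃ v : Fin (M + 1) → ℤ, (∀ i, |(v i : ℝ)| ≤ H) ∧ v i0 ≠ 0 ∧
    ∃ w : Fin N → Fin (M + 1) → ℤ, (∀ i, EB d (M + 1) mu C H v (w i)) ∧
      ∀ U : Fin s → Submodule ℚ (Fin M → ℚ), (∀ l, Module.finrank ℚ (U l) ≤ d - 1) →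
        ∃ i, ∀ l, (fun k => (red i0 v (w i) k : ℚ)) ∉ U l

theorem BadE_mono {d M s N : ℕ} {mu : Fin (M + 1) → ℂ} {C C' : ℝ} {i0 : Fin (M + 1)}
    (hC : C' ≤ C) (h : BadE d M s N mu C i0) : BadE d M s N mu C' i0 := by
  obtain ⟨H, hH, v, hv, hv0, w, hw, hU⟩ := h
  refine ⟨H, hH, v, hv, hv0, w, fun i => ?_, hU⟩
  obtain ⟨h1, Q, h3, h4, h5, h6⟩ := hw i
  refine ⟨h1, Q, h3, h4, h5, lt_of_le_of_lt ?_ h6⟩
  exact mul_le_mul_of_nonneg_right
    (Real.rpow_le_rpow_of_exponent_le (by linarith) hC) (norm_nonneg _)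

theorem evZ_comb {H : ℕ → ℝ} (P : Pkg H) {a b c e : ℕ → ℤ} (ha : P.Bd a) (hb : P.Bd b)
    (hc : P.Bd c) (he : P.Bd e) : P.Bd (fun j => a j * b j - c j * e j) ∧
    P.evZ (fun j => a j * b j - c j * e j) = P.evZ a * P.evZ b - P.evZ c * P.evZ e := by
  have h1 : (fun j => ((a j * b j - c j * e j : ℤ) : ℂ)) =
      (fun j => (a j : ℂ)) * (fun j => (b j : ℂ)) - (fun j => (c j : ℂ)) * (fun j => (e j : ℂ)) := by
    funext j
    simp
  refine ⟨?_, ?_⟩
  · rw [Pkg.Bd, h1]
    exact P.O.sub_mem (P.O.mul_mem ha hb) (P.O.mul_mem hc he)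
  · rw [Pkg.evZ, h1, P.ev_sub (P.O.mul_mem ha hb) (P.O.mul_mem hc he), P.ev_mul ha hb,
      P.ev_mul hc he]
    rfl

/-- exchanging one element -/
theorem exch_indep {K F : Type} [Field K] [Field F] [Algebra K F] {M : ℕ}
    {y : Fin (M + 1) → F} (h : LinearIndependent K (Fin.cons 1 y : Fin (M + 2) → F))
    (nu : Fin (M + 1) → K) (i0 : Fin (M + 1)) (h0 : nu i0 ≠ 0) :
    LinearIndependent K (Fin.cons 1 (Fin.cons (∑ k, algebraMap K F (nu k) * y k)
      (fun k : Fin M => y (i0.succAbove k))) : Fin (M + 2) → F) := by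
  obtain ⟨t, ht⟩ : ∃ t, t = ∑ k, algebraMap K F (nu k) * y k := ⟨_, rfl⟩
  rw [← ht]
  rw [Fintype.linearIndependent_iff] at h ⊢
  intro g hg
  rw [Fin.sum_univ_succ, Fin.sum_univ_succ] at hg
  simp only [Fin.cons_zero, Fin.cons_succ, Algebra.smul_def] at hg
  have h1 := h (Fin.cons (g 0) (fun k => g (Fin.succ 0) * nu k +
    (i0.insertNth (α := fun _ => K) 0 (fun k : Fin M => g k.succ.succ)) k)) (by
    rw [Fin.sum_univ_succ, Fin.sum_univ_succAbove _ i0]
    simp only [Fin.cons_zero, Fin.cons_succ, Algebra.smul_def, map_add, map_mul,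
      Fin.insertNth_apply_same, Fin.insertNth_apply_succAbove, map_zero, add_zero]
    have hsplit : ∑ x : Fin M, (algebraMap K F (g (Fin.succ 0)) *
        algebraMap K F (nu (i0.succAbove x)) + algebraMap K F (g x.succ.succ)) *
        y (i0.succAbove x) = ∑ x : Fin M, algebraMap K F (g (Fin.succ 0)) *
        (algebraMap K F (nu (i0.succAbove x)) * y (i0.succAbove x)) +
        ∑ x : Fin M, algebraMap K F (g x.succ.succ) * y (i0.succAbove x) := by
      rw [← Finset.sum_add_distrib]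
      refine Finset.sum_congr rfl fun k _ => ?_
      ring
    rw [← hg, ht, Fin.sum_univ_succAbove _ i0, mul_add, Finset.mul_sum, hsplit]
    ring)
  have e0 := h1 0
  have e1 := h1 i0.succ
  rw [Fin.cons_zero] at e0
  rw [Fin.cons_succ, Fin.insertNth_apply_same, add_zero] at e1
  have e2 : g (Fin.succ 0) = 0 := by
    rcases mul_eq_zero.mp e1 with h | h
    · exact h
    · exact absurd h h0
  intro i
  refine Fin.cases e0 (fun i => ?_) i
  refine Fin.cases e2 (fun k => ?_) i
  have e3 := h1 (i0.succAbove k).succ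
  rw [Fin.cons_succ, Fin.insertNth_apply_succAbove, e2, zero_mul, zero_add] at e3
  exact e3

theorem esf_core (hEVP : T_EVP) (hMNR : T_MNR) (d M s N : ℕ)
    (hEXS : ∀ (K F : Type) [Field K] [CharZero K] [IsAlgClosed K]
      [Field F] [Algebra K F] (t : F) (y : Fin M → F),
      LinearIndependent K (Fin.cons 1 (Fin.cons t y) : Fin (M + 2) → F) →
      ∃ W : Fin s → Submodule K (Fin M → K), (∀ i, Module.finrank K (W i) ≤ d - 1) ∧
      ∀ v : Fin M → K, RelD K t d (∑ j, algebraMap K F (v j) * y j) → ∃ i, v ∈ W i)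
    {H : ℕ → ℝ} (P : Pkg H) (mu : Fin (M + 1) → ℂ)
    (hli : LinearIndependent P.kb
      (Fin.cons 1 (fun k => P.cst (mu k)) : Fin (M + 2) → P.F))
    (i0 : Fin (M + 1)) (v : ℕ → Fin (M + 1) → ℤ) (hvH : ∀ j i, |(v j i : ℝ)| ≤ H j)
    (hv0 : ∀ j, v j i0 ≠ 0)
    (w : ℕ → Fin N → Fin (M + 1) → ℤ)
    (hw : ∀ (j : ℕ) i, EB d (M + 1) mu ((j : ℝ) + 1) (H j) (v j) (w j i))
    (hcov : ∀ j, ∀ U : Fin s → Submodule ℚ (Fin M → ℚ), (∀ l, Module.finrank ℚ (U l) ≤ d - 1) →
      ∃ i, ∀ l, (fun k => (red i0 (v j) (w j i) k : ℚ)) ∉ U l) : False := by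
  classical
  have hBv : ∀ k, P.Bd (fun j => v j k) := fun k =>
    P.bd_of_le 1 (fun j => by rw [pow_one]; exact hvH j k)
  have hBw : ∀ i k, P.Bd (fun j => w j i k) := fun i k =>
    P.bd_of_le 1 (fun j => by rw [pow_one]; exact (hw j i).1 k)
  let nu : Fin (M + 1) → P.kb := fun k =>
    algebraMap P.kk P.kb ⟨P.evZ (fun j => v j k), P.evZ_mem (hBv k)⟩
  have hnu : ∀ k, algebraMap P.kb P.F (nu k) = P.evZ (fun j => v j k) := fun k => rfl
  let β : Fin N → Fin (M + 1) → P.kb := fun i k =>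
    algebraMap P.kk P.kb ⟨P.evZ (fun j => w j i k), P.evZ_mem (hBw i k)⟩
  have hβ : ∀ i k, algebraMap P.kb P.F (β i k) = P.evZ (fun j => w j i k) := fun i k => rfl
  have hnu0 : nu i0 ≠ 0 := by
    intro h
    have h1 := congrArg (algebraMap P.kb P.F) h
    rw [hnu, map_zero] at h1
    exact P.evZ_ne_zero (hBv i0) hv0 h1
  set t : P.F := ∑ k, algebraMap P.kb P.F (nu k) * P.cst (mu k) with ht
  let β' : Fin N → Fin M → P.kb := fun i k =>
    nu i0 * β i (i0.succAbove k) - β i i0 * nu (i0.succAbove k)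
  have hB' : ∀ i k, P.Bd (fun j => red i0 (v j) (w j i) k) := fun i k =>
    (evZ_comb P (hBv i0) (hBw i (i0.succAbove k)) (hBw i i0) (hBv (i0.succAbove k))).1
  have hβ' : ∀ i k, algebraMap P.kb P.F (β' i k) = P.evZ (fun j => red i0 (v j) (w j i) k) := by
    intro i k
    have h1 := (evZ_comb P (hBv i0) (hBw i (i0.succAbove k)) (hBw i i0)
      (hBv (i0.succAbove k))).2
    change algebraMap P.kb P.F (nu i0 * β i (i0.succAbove k) - β i i0 * nu (i0.succAbove k)) =
      P.evZ (fun j => v j i0 * w j i (i0.succAbove k) - w j i i0 * v j (i0.succAbove k))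
    rw [h1, map_sub, map_mul, map_mul, hnu, hβ, hβ, hnu]
  -- sums
  have hsumO : ∀ u : ℕ → Fin (M + 1) → ℤ, (∀ k, P.Bd (fun j => u j k)) →
      (fun j => ∑ k, (u j k : ℂ) * mu k) ∈ P.O ∧
      P.ev (fun j => ∑ k, (u j k : ℂ) * mu k) = ∑ k, P.evZ (fun j => u j k) * P.cst (mu k) := by
    intro u hu
    have h1 : (fun j => ∑ k, (u j k : ℂ) * mu k) =
        ∑ k, ((fun j => (u j k : ℂ)) * (fun _ => mu k)) := by
      funext j
      rw [Finset.sum_apply]
      rfl
    rw [h1]
    refine ⟨P.O.sum_mem fun k _ => P.O.mul_mem (hu k) (P.const_mem (mu k)), ?_⟩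
    rw [P.ev_sum _ _ (fun k _ => P.O.mul_mem (hu k) (P.const_mem (mu k)))]
    refine Finset.sum_congr rfl fun k _ => ?_
    rw [P.ev_mul (hu k) (P.const_mem (mu k))]
    rfl
  choose hwb Q hQ0 hQd hQc hQv using hw
  -- the relations
  have hrel : ∀ i : Fin N, RelD P.kb t d (∑ k, algebraMap P.kb P.F (β i k) * P.cst (mu k)) := by
    intro i
    have h1 := hsumO v hBv
    have h2 := hsumO (fun j => w j i) (hBw i)
    have hx : ∀ x : Fin 2, (fun j => (![∑ k, (v j k : ℂ) * mu k, ∑ k, (w j i k : ℂ) * mu k] :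
        Fin 2 → ℂ) x) ∈ P.O := by
      intro x
      fin_cases x
      · exact h1.1
      · exact h2.1
    have hev : (fun x => P.ev (fun j => (![∑ k, (v j k : ℂ) * mu k,
        ∑ k, (w j i k : ℂ) * mu k] : Fin 2 → ℂ) x)) =
        ![t, ∑ k, algebraMap P.kb P.F (β i k) * P.cst (mu k)] := by
      funext x
      fin_cases x
      · exact h1.2
      · exact h2.2
    obtain ⟨Q', h2, h3, h4⟩ := Pool.Agent.H29.BF.seq_rel hEVP P d (fun j => Q j i)
      (fun j => hQ0 j i) (fun j => hQd j i) (fun j => hQc j i) _ hx (fun j => hQv j i)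
    rw [hev] at h4
    exact ⟨Q', h2, h3, h4⟩
  have hrel' : ∀ i : Fin N, RelD P.kb t d
      (∑ k, algebraMap P.kb P.F (β' i k) * P.cst (mu (i0.succAbove k))) := by
    intro i
    have h1 := relD_comb (hrel i) (nu i0) (β i i0) hnu0
    have h2 : algebraMap P.kb P.F (nu i0) * (∑ k, algebraMap P.kb P.F (β i k) * P.cst (mu k)) -
        algebraMap P.kb P.F (β i i0) * t =
        ∑ k, algebraMap P.kb P.F (β' i k) * P.cst (mu (i0.succAbove k)) := by
      rw [ht, Fin.sum_univ_succAbove _ i0, Fin.sum_univ_succAbove _ i0, mul_add, mul_add,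
        Finset.mul_sum, Finset.mul_sum]
      have h3 : ∑ k, algebraMap P.kb P.F (β' i k) * P.cst (mu (i0.succAbove k)) =
          ∑ k, algebraMap P.kb P.F (nu i0) * (algebraMap P.kb P.F (β i (i0.succAbove k)) *
            P.cst (mu (i0.succAbove k))) -
          ∑ k, algebraMap P.kb P.F (β i i0) * (algebraMap P.kb P.F (nu (i0.succAbove k)) *
            P.cst (mu (i0.succAbove k))) := by
        rw [← Finset.sum_sub_distrib]
        refine Finset.sum_congr rfl fun k _ => ?_
        change algebraMap P.kb P.F (nu i0 * β i (i0.succAbove k) -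
          β i i0 * nu (i0.succAbove k)) * P.cst (mu (i0.succAbove k)) = _
        rw [map_sub, map_mul, map_mul]
        ring
      rw [h3]
      ring
    rw [h2] at h1
    exact h1
  obtain ⟨W, hWd, hW⟩ := hEXS P.kb P.F t (fun k => P.cst (mu (i0.succAbove k)))
    (exch_indep hli nu i0 hnu0)
  exact colour_core hMNR (d - 1) M s N P (fun j i => red i0 (v j) (w j i)) hB' W hWd β' hβ'
    (fun i => hW (β' i) (hrel' i)) hcov

/-- the lift of a subspace -/
def sec {M : ℕ} (i0 : Fin (M + 1)) : (Fin M → ℚ) →ₗ[ℚ] (Fin (M + 1) → ℚ) where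
  toFun y := i0.insertNth (α := fun _ => ℚ) 0 y
  map_add' x y := by
    funext k
    refine Fin.succAboveCases i0 ?_ (fun k => ?_) k
    · simp
    · simp
  map_smul' c y := by
    funext k
    refine Fin.succAboveCases i0 ?_ (fun k => ?_) k
    · simp
    · simp

theorem esf (hBF : T_BF) (hPKG : T_PKG) (hBFF : T_BFF) (hEVP : T_EVP) (hMNR : T_MNR)
    (hEXS : T_EXS) (hCRT : T_CRT) : T_ESF := by
  classical
  intro d M
  rcases Nat.eq_zero_or_pos d with hd0 | hd
  · subst hd0
    refine ⟨0, fun mu _ _ => ⟨1, one_pos, fun H hH v _ _ => ⟨fun i => i.elim0, fun i => i.elim0,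
      fun w _ _ P hP hPd _ => ?_⟩⟩⟩
    have h1 := (MvPolynomial.totalDegree_eq_zero_iff_eq_C (p := P)).mp (Nat.le_zero.mp hPd)
    rw [h1]
    have h2 : P.coeff 0 ≠ 0 := by
      intro h
      rw [h, map_zero] at h1
      exact hP h1
    rw [MvPolynomial.aeval_C, algebraMap_int_eq, Int.coe_castRingHom, Complex.norm_intCast,
      Real.rpow_one]
    have h3 : (1:ℝ) ≤ |((MvPolynomial.coeff 0 P : ℤ) : ℝ)| := by
      exact_mod_cast Int.one_le_abs h2
    nlinarith
  cases M with
  | zero =>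
    refine ⟨0, fun mu _ _ => ⟨1, one_pos, fun H hH v hv _ => ?_⟩⟩
    exact absurd (Subsingleton.elim v 0) hv
  | succ M =>
    obtain ⟨s, hs⟩ := hEXS d M
    obtain ⟨N, hN⟩ := hCRT s (d - 1)
    refine ⟨s, fun mu hli hmu => ?_⟩
    by_contra hcon
    push Not at hcon
    have h1 : ∀ n : ℕ, ∃ i0, BadE d M s N mu ((n : ℝ) + 1) i0 := by
      intro n
      obtain ⟨H, hH2, v, hv0, hvH, hH⟩ := hcon ((n : ℝ) + 1) (by positivity)
      obtain ⟨i0, hi0⟩ := Function.ne_iff.mp hv0
      refine ⟨i0, H, hH2, v, hvH, hi0, ?_⟩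
      have h2 : ¬ ∃ U : Fin s → Submodule ℚ (Fin M → ℚ),
          (∀ i, Module.finrank ℚ (U i) ≤ d - 1) ∧
          ∀ b ∈ {b : Fin M → ℚ | ∃ w : Fin (M + 1) → ℤ, (b = fun k => (red i0 v w k : ℚ)) ∧
            EB d (M + 1) mu ((n : ℝ) + 1) H v w}, ∃ l, b ∈ U l := by
        rintro ⟨U, hU1, hU2⟩
        obtain ⟨w, hw1, hw2, P, hP0, hPd, hPc, hPv⟩ := hH
          (fun l => Submodule.span ℚ {(fun j => (v j : ℚ) : Fin (M + 1) → ℚ)} ⊔
            (U l).map (sec i0)) (by
          intro l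
          refine ⟨?_, Submodule.mem_sup_left (Submodule.mem_span_singleton_self _)⟩
          refine le_trans (Submodule.finrank_add_le_finrank_add_finrank _ _) ?_
          have h3 := finrank_span_le_card (R := ℚ)
            ({(fun j => (v j : ℚ) : Fin (M + 1) → ℚ)} : Set (Fin (M + 1) → ℚ))
          have h4 : Module.finrank ℚ ((U l).map (sec i0)) ≤ Module.finrank ℚ (U l) :=
            Submodule.finrank_map_le _ _
          have h5 := hU1 l
          simp only [Set.toFinset_singleton, Finset.card_singleton] at h3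
          omega)
        obtain ⟨l, hl⟩ := hU2 _ ⟨w, rfl, hw1, P, hP0, hPd, hPc, hPv⟩
        apply hw2 l
        have hvq : (v i0 : ℚ) ≠ 0 := by exact_mod_cast hi0
        have h6 : (fun j => (w j : ℚ)) = ((w i0 : ℚ) / v i0) • (fun j => (v j : ℚ)) +
            (1 / (v i0 : ℚ)) • sec i0 (fun k => (red i0 v w k : ℚ)) := by
          funext k
          refine Fin.succAboveCases i0 ?_ (fun k => ?_) k
          · rw [Pi.add_apply, Pi.smul_apply, Pi.smul_apply]
            change (w i0 : ℚ) = (w i0 : ℚ) / v i0 * v i0 + 1 / (v i0 : ℚ) *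
              (i0.insertNth (α := fun _ => ℚ) 0 (fun k => (red i0 v w k : ℚ)) : Fin (M + 1) → ℚ) i0
            rw [Fin.insertNth_apply_same]
            field_simp
            ring
          · rw [Pi.add_apply, Pi.smul_apply, Pi.smul_apply]
            change (w (i0.succAbove k) : ℚ) = (w i0 : ℚ) / v i0 * v (i0.succAbove k) +
              1 / (v i0 : ℚ) * (i0.insertNth (α := fun _ => ℚ) 0
                (fun k => (red i0 v w k : ℚ)) : Fin (M + 1) → ℚ) (i0.succAbove k)
            rw [Fin.insertNth_apply_succAbove, red]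
            push_cast
            field_simp
            ring
        rw [h6]
        exact Submodule.add_mem_sup
          (Submodule.smul_mem _ _ (Submodule.mem_span_singleton_self _))
          (Submodule.smul_mem _ _ (Submodule.mem_map_of_mem hl))
      have h3 := mt (hN ℚ M _) h2
      push Not at h3
      obtain ⟨b, hb1, hb2⟩ := h3
      choose w hw1 hw2 using hb1
      refine ⟨w, hw2, fun U hU => ?_⟩
      obtain ⟨i, hi⟩ := hb2 U hU
      refine ⟨i, fun l => ?_⟩
      rw [← hw1 i]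
      exact hi l
    have h2 : ∃ i0, ∀ n : ℕ, BadE d M s N mu ((n : ℝ) + 1) i0 := by
      by_contra hno
      push Not at hno
      choose f hf using hno
      obtain ⟨i0, hB⟩ := h1 (Finset.univ.sup f)
      refine hf i0 (BadE_mono ?_ hB)
      have h4 : f i0 ≤ Finset.univ.sup f := Finset.le_sup (f := f) (Finset.mem_univ _)
      have h5 : (f i0 : ℝ) ≤ ((Finset.univ.sup f : ℕ) : ℝ) := by exact_mod_cast h4
      linarith
    obtain ⟨i0, hB⟩ := h2
    choose H hH2 v hvH hv0 w hw hcov using hB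
    obtain ⟨P⟩ := hPKG H hH2
    have hli3 := hBFF hBF (M + 1) mu hli hmu H P
    exact esf_core hEVP hMNR d M s N hs P mu hli3 i0 v hvH hv0 w hw hcov

end Pool.Agent.H62.BF
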