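import Pool.Agent.H72.BF.Targets4

open Polynomial Finset Filter
open Pool.Agent.H72.BF

namespace Pool.Agent.H62.BF

theorem padicValRat_prod_zpow {ι : Type} [DecidableEq ι] (q : ι → ℕ) (hq : ∀ i, (q i).Prime)
    (hinj : Function.Injective q) (c : ι → ℤ) (j : ι) (s : Finset ι) :
    padicValRat (q j) (∏ i ∈ s, (q i : ℚ) ^ c i) = if j ∈ s then c j else 0 := by
  haveI : Fact (q j).Prime := ⟨hq j⟩
  induction s using Finset.induction_on with
  | empty => simp
  | insert a s ha ih =>
    rw [Finset.prod_insert ha, padicValRat.mul, ih, padicValRat.zpow]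
    · by_cases h : j = a
      · subst h
        rw [padicValRat.of_nat, padicValNat_self]
        simp [ha]
      · have h1 : padicValNat (q j) (q a) = 0 := by
          apply padicValNat.eq_zero_of_not_dvd
          intro hd
          exact h (hinj ((Nat.prime_dvd_prime_iff_eq (hq j) (hq a)).mp hd))
        rw [padicValRat.of_nat, h1]
        simp [h]
    · exact zpow_ne_zero _ (by exact_mod_cast (hq a).ne_zero)
    · exact Finset.prod_ne_zero_iff.mpr fun i _ =>
        zpow_ne_zero _ (by exact_mod_cast (hq i).ne_zero)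

theorem log_primes_indep {ι : Type} [Fintype ι] [DecidableEq ι] (q : ι → ℕ)
    (hq : ∀ i, (q i).Prime) (hinj : Function.Injective q) (c : ι → ℤ)
    (h : ∑ i, (c i : ℝ) * Real.log (q i) = 0) (j : ι) : c j = 0 := by
  have hpos : ∀ i, (0:ℝ) < (q i : ℝ) := fun i => by exact_mod_cast (hq i).pos
  have h1 : (∏ i, ((q i : ℝ)) ^ c i) = 1 := by
    have h2 : Real.exp (∑ i, (c i : ℝ) * Real.log (q i)) = ∏ i, ((q i : ℝ)) ^ c i := by
      rw [Real.exp_sum]
      refine Finset.prod_congr rfl fun i _ => ?_
      rw [← Real.rpow_intCast, Real.rpow_def_of_pos (hpos i), mul_comm]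
    rw [← h2, h, Real.exp_zero]
  have h3 : (∏ i, ((q i : ℚ)) ^ c i) = 1 := by
    have : (((∏ i, ((q i : ℚ)) ^ c i : ℚ)) : ℝ) = ((1:ℚ):ℝ) := by
      push_cast
      exact h1
    exact_mod_cast this
  have h4 := padicValRat_prod_zpow q hq hinj c j Finset.univ
  rw [h3] at h4
  simpa using h4.symm

theorem cubi (hC : T_CUBE) : T_CUBI := by
  intro k ε hε
  obtain ⟨x0, hx0⟩ := hC k ε ∅ hε
  refine ⟨x0, fun x hx => ?_⟩
  intro S hS hc
  have hinjlog : Set.InjOn (fun m : ℕ => (Real.log m : ℂ)) (↑(Finset.Icc 1 x) : Set ℕ) := by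
    intro a ha b hb hab
    rw [Finset.mem_coe, Finset.mem_Icc] at ha hb
    have h1 : Real.log a = Real.log b := by
      have := hab
      simp only at this
      exact_mod_cast this
    have ha0 : (0:ℝ) < a := by exact_mod_cast ha.1
    have hb0 : (0:ℝ) < b := by exact_mod_cast hb.1
    have h2 := Real.log_injOn_pos (Set.mem_Ioi.mpr ha0) (Set.mem_Ioi.mpr hb0) h1
    exact_mod_cast h2
  rw [Finset.card_image_of_injOn hinjlog, Nat.card_Icc, Nat.add_sub_cancel] at hc
  classical
  set S' : Finset ℕ := (Finset.Icc 1 x).filter (fun m => (Real.log m : ℂ) ∈ S) with hS'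
  have hcard : S.card = S'.card := by
    have : S = S'.image (fun m : ℕ => (Real.log m : ℂ)) := by
      ext z
      rw [Finset.mem_image]
      constructor
      · intro hz
        obtain ⟨m, hm, hmz⟩ := Finset.mem_image.mp (hS hz)
        refine ⟨m, ?_, hmz⟩
        rw [hS', Finset.mem_filter]
        refine ⟨hm, ?_⟩
        rw [hmz]; exact hz
      · rintro ⟨m, hm, rfl⟩
        rw [hS', Finset.mem_filter] at hm
        exact hm.2
    rw [this, Finset.card_image_of_injOn]
    exact hinjlog.mono (by rw [hS']; exact_mod_cast Finset.filter_subset _ _)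
  rw [hcard] at hc
  obtain ⟨p, m, hm, hp, hinj, hmem⟩ := hx0 x hx S' (Finset.filter_subset _ _) hc
  have hp0 : ∀ i e, (0:ℝ) < (p i e : ℝ) := fun i e => by exact_mod_cast (hp i e).1.pos
  have hm0 : (0:ℝ) < (m:ℝ) := by exact_mod_cast hm
  refine ⟨((Real.log m + ∑ i, Real.log (p i 0) : ℝ) : ℂ),
    fun i => ((Real.log (p i 1) - Real.log (p i 0) : ℝ) : ℂ), ?_, ?_⟩
  · rw [← LinearIndependent.iff_fractionRing ℤ ℚ, Fintype.linearIndependent_iff]
    intro g hg
    have h1 : ∑ i, (g i : ℝ) * (Real.log (p i 1) - Real.log (p i 0)) = 0 := by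
      have : ((∑ i, (g i : ℝ) * (Real.log (p i 1) - Real.log (p i 0)) : ℝ) : ℂ) = 0 := by
        rw [← hg]
        push_cast
        refine Finset.sum_congr rfl fun i _ => ?_
        rw [zsmul_eq_mul]
      exact_mod_cast this
    have h2 : ∑ ie : Fin k × Fin 2, (((if ie.2 = 1 then g ie.1 else - g ie.1 : ℤ)) : ℝ) *
        Real.log (p ie.1 ie.2) = 0 := by
      rw [Fintype.sum_prod_type, ← h1]
      refine Finset.sum_congr rfl fun i _ => ?_
      rw [Fin.sum_univ_two]
      simp
      ring
    intro i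
    have h3 := log_primes_indep (fun ie : Fin k × Fin 2 => p ie.1 ie.2)
      (fun ie => (hp ie.1 ie.2).1) hinj (fun ie => if ie.2 = 1 then g ie.1 else - g ie.1) h2 (i, 1)
    simpa using h3
  · intro I
    have h1 := hmem (fun i => if i ∈ I then 1 else 0)
    rw [hS', Finset.mem_filter] at h1
    have h2 : Real.log ((m * ∏ i, p i (if i ∈ I then 1 else 0) : ℕ) : ℝ) =
        (Real.log m + ∑ i, Real.log (p i 0)) +
          ∑ i ∈ I, (Real.log (p i 1) - Real.log (p i 0)) := by
      push_cast
      rw [Real.log_mul hm0.ne' (Finset.prod_ne_zero_iff.mpr fun i _ => (hp0 i _).ne'),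
        Real.log_prod (fun i _ => (hp0 i _).ne'), add_assoc]
      congr 1
      rw [← Finset.sum_filter_add_sum_filter_not Finset.univ (fun i => i ∈ I)
        (fun i => Real.log (p i 0)),
        ← Finset.sum_filter_add_sum_filter_not Finset.univ (fun i => i ∈ I)
        (fun i => Real.log (p i (if i ∈ I then 1 else 0)))]
      have hI : Finset.univ.filter (fun i : Fin k => i ∈ I) = I := by ext; simp
      rw [hI, Finset.sum_sub_distrib]
      have e1 : ∑ i ∈ I, Real.log (p i (if i ∈ I then 1 else 0)) =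
          ∑ i ∈ I, Real.log (p i 1) :=
        Finset.sum_congr rfl fun i hi => by rw [if_pos hi]
      have e2 : ∑ i ∈ Finset.univ.filter (fun i : Fin k => ¬ i ∈ I),
          Real.log (p i (if i ∈ I then 1 else 0)) =
          ∑ i ∈ Finset.univ.filter (fun i : Fin k => ¬ i ∈ I), Real.log (p i 0) :=
        Finset.sum_congr rfl fun i hi => by rw [if_neg (Finset.mem_filter.mp hi).2]
      rw [e1, e2]; ring
    have h3 := h1.2
    rw [h2] at h3
    push_cast at h3 ⊢
    exact h3

end Pool.Agent.H62.BF
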