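import Pool.Agent.H72.BF.Targets4

open Polynomial Finset Filter
open Pool.Agent.H72.BF

namespace Pool.Agent.H62.BF

theorem aab : T_AAB := by
  classical
  intro hAA hCB n d δ hδ
  obtain ⟨k, ε, hε, hk⟩ := hAA n d δ hδ
  obtain ⟨M0, hM0⟩ := hCB k ε hε
  refine ⟨M0, fun M hM lam0 mu hlam halg hmu hmualg V hV => ?_⟩
  have hmuZ : LinearIndependent ℤ mu := (LinearIndependent.iff_fractionRing ℤ ℚ).mpr hmu
  set f : (Fin M → ℤ) → ℂ := fun v => ∑ j, (v j : ℂ) * mu j with hf
  have hfinj : Function.Injective f := by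
    intro v v' hvv
    have h1 : ∑ j, (v j - v' j) • mu j = 0 := by
      have h2 : ∑ j, (v j - v' j) • mu j = f v - f v' := by
        simp only [hf]
        rw [← Finset.sum_sub_distrib]
        refine Finset.sum_congr rfl fun j _ => ?_
        rw [zsmul_eq_mul]; push_cast; ring
      rw [h2, hvv, sub_self]
    ext j
    have h3 := (Fintype.linearIndependent_iff.mp hmuZ) (fun j => v j - v' j) h1 j
    exact sub_eq_zero.mp h3
  set X : Finset ℂ := (Fintype.piFinset V).image f with hX
  have hXcard : (X.card : ℝ) = ∏ j, ((V j).card : ℝ) := by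
    rw [hX, Finset.card_image_of_injective _ hfinj, Fintype.card_piFinset]
    push_cast
    rfl
  have hXalg : ∀ z ∈ X, IsAlgebraic ℚ (Complex.exp z) := by
    intro z hz
    obtain ⟨v, _, rfl⟩ := Finset.mem_image.mp hz
    simp only [hf]
    rw [Complex.exp_sum]
    have hprod : ∀ s : Finset (Fin M),
        IsAlgebraic ℚ (∏ j ∈ s, Complex.exp ((v j : ℂ) * mu j)) := by
      intro s
      induction s using Finset.induction_on with
      | empty => simpa using isAlgebraic_one
      | insert a s ha ih =>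
        rw [Finset.prod_insert ha]
        refine IsAlgebraic.mul ?_ ih
        rw [Complex.exp_int_mul]
        have hz := hmualg a
        cases hva : v a with
        | ofNat m =>
          rw [Int.ofNat_eq_natCast, zpow_natCast]
          exact hz.pow m
        | negSucc m =>
          rw [zpow_negSucc]
          exact (hz.pow (m + 1)).inv
    exact hprod Finset.univ
  obtain ⟨C, hC, hCH⟩ := hk X hXalg (hM0 M hM mu hmu V hV) lam0 hlam halg
  refine ⟨C, hC, fun H hH => ?_⟩
  have h1 := hCH H hH
  rw [hXcard] at h1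
  refine le_trans ?_ h1
  have hfin : {a : Fin n → ℂ | (∀ i, a i ∈ X) ∧ badZ lam0 n d C H a}.Finite := by
    refine Set.Finite.subset (Finset.finite_toSet (Fintype.piFinset (fun _ : Fin n => X))) ?_
    intro a ha
    rw [Finset.mem_coe, Fintype.mem_piFinset]
    exact ha.1
  have h2 : Set.ncard {v : Fin n → Fin M → ℤ | (∀ i j, v i j ∈ V j) ∧
      badZ lam0 n d C H (fun i => ∑ j, (v i j : ℂ) * mu j)} ≤
      Set.ncard {a : Fin n → ℂ | (∀ i, a i ∈ X) ∧ badZ lam0 n d C H a} := by
    refine Set.ncard_le_ncard_of_injOn (fun v i => f (v i)) ?_ ?_ hfin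
    · rintro v ⟨hv1, hv2⟩
      refine ⟨fun i => ?_, hv2⟩
      rw [hX, Finset.mem_image]
      exact ⟨v i, Fintype.mem_piFinset.mpr (hv1 i), rfl⟩
    · intro v _ v' _ hvv
      ext i : 1
      exact hfinj (congrFun hvv i)
  exact_mod_cast h2

end Pool.Agent.H62.BF
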