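import Pool.Agent.H72.BF.Targets4

open Polynomial Finset Filter
open Pool.Agent.H72.BF

namespace Pool.Agent.H62.BF

/-- two points of `A` with many common neighbours -/
theorem step_pair {α β : Type} [DecidableEq α] [DecidableEq β] (A : Finset α) (B : Finset β)
    (S : Finset (α × β)) (ε : ℝ) (hε : 0 < ε) (hB : B.Nonempty) (hS : S ⊆ A ×ˢ B)
    (hc : ε * (A.card * B.card) ≤ S.card) (hA : 2 / ε ^ 2 ≤ A.card) :
    ∃ x ∈ A, ∃ x' ∈ A, x ≠ x' ∧
      ε ^ 2 / 2 * B.card ≤ ((B.filter (fun y => (x, y) ∈ S ∧ (x', y) ∈ S)).card : ℝ) := by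
  classical
  by_contra hcon
  push Not at hcon
  set s : α → β → ℝ := fun x y => if (x, y) ∈ S then 1 else 0 with hs
  have hs01 : ∀ x y, 0 ≤ s x y ∧ s x y ≤ 1 := by
    intro x y; simp only [hs]; split_ifs <;> norm_num
  have hScard : (S.card : ℝ) = ∑ y ∈ B, ∑ x ∈ A, s x y := by
    rw [Finset.sum_comm, ← Finset.sum_product']
    simp only [hs]
    rw [← Finset.sum_filter, Finset.sum_const, nsmul_eq_mul, mul_one]
    congr 2
    ext ⟨x, y⟩
    rw [Finset.mem_filter]
    exact ⟨fun h => ⟨hS h, h⟩, fun h => h.2⟩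
  have hN : ∀ x x', ((B.filter (fun y => (x, y) ∈ S ∧ (x', y) ∈ S)).card : ℝ) =
      ∑ y ∈ B, s x y * s x' y := by
    intro x x'
    rw [Finset.card_filter]
    push_cast
    refine Finset.sum_congr rfl fun y _ => ?_
    simp only [hs]
    by_cases h1 : (x, y) ∈ S <;> by_cases h2 : (x', y) ∈ S <;> simp [h1, h2]
  have hsq : ∑ y ∈ B, (∑ x ∈ A, s x y) ^ 2 = ∑ x ∈ A, ∑ x' ∈ A, ∑ y ∈ B, s x y * s x' y := by
    have : ∀ y ∈ B, (∑ x ∈ A, s x y) ^ 2 = ∑ x ∈ A, ∑ x' ∈ A, s x y * s x' y := by
      intro y _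
      rw [sq, Finset.sum_mul_sum]
    rw [Finset.sum_congr rfl this, Finset.sum_comm]
    refine Finset.sum_congr rfl fun x _ => ?_
    rw [Finset.sum_comm]
  have hrow : ∀ x ∈ A, ∑ x' ∈ A, ∑ y ∈ B, s x y * s x' y ≤
      (B.card : ℝ) + ((A.card : ℝ) - 1) * (ε ^ 2 / 2 * B.card) := by
    intro x hx
    rw [← Finset.add_sum_erase _ _ hx]
    have h1 : ∑ y ∈ B, s x y * s x y ≤ (B.card : ℝ) := by
      have : ∑ y ∈ B, s x y * s x y ≤ ∑ y ∈ B, (1:ℝ) := by
        refine Finset.sum_le_sum fun y _ => ?_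
        have := hs01 x y
        nlinarith
      simpa using this
    have h2 : ∑ x' ∈ A.erase x, ∑ y ∈ B, s x y * s x' y ≤
        ((A.card : ℝ) - 1) * (ε ^ 2 / 2 * B.card) := by
      have h3 : ∀ x' ∈ A.erase x, ∑ y ∈ B, s x y * s x' y ≤ ε ^ 2 / 2 * B.card := by
        intro x' hx'
        rw [Finset.mem_erase] at hx'
        rw [← hN]
        exact (hcon x hx x' hx'.2 (Ne.symm hx'.1)).le
      refine le_trans (Finset.sum_le_sum h3) ?_
      rw [Finset.sum_const, nsmul_eq_mul, Finset.card_erase_of_mem hx,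
        Nat.cast_sub (Finset.card_pos.mpr ⟨x, hx⟩)]
      simp
    linarith
  have htot : ∑ y ∈ B, (∑ x ∈ A, s x y) ^ 2 ≤
      (A.card : ℝ) * ((B.card : ℝ) + ((A.card : ℝ) - 1) * (ε ^ 2 / 2 * B.card)) := by
    rw [hsq]
    refine le_trans (Finset.sum_le_sum hrow) ?_
    rw [Finset.sum_const, nsmul_eq_mul]
  have hcs : (∑ y ∈ B, ∑ x ∈ A, s x y) ^ 2 ≤ (B.card : ℝ) * ∑ y ∈ B, (∑ x ∈ A, s x y) ^ 2 :=
    sq_sum_le_card_mul_sum_sq
  rw [← hScard] at hcs
  have hBpos : (0:ℝ) < B.card := by exact_mod_cast Finset.card_pos.mpr hB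
  have hApos : (0:ℝ) < A.card := lt_of_lt_of_le (by positivity) hA
  have h4 : (ε * (A.card * B.card)) ^ 2 ≤ (S.card : ℝ) ^ 2 :=
    pow_le_pow_left₀ (by positivity) hc 2
  have h5 : (ε * (A.card * B.card)) ^ 2 ≤ (B.card : ℝ) *
      ((A.card : ℝ) * ((B.card : ℝ) + ((A.card : ℝ) - 1) * (ε ^ 2 / 2 * B.card))) :=
    le_trans h4 (le_trans hcs (mul_le_mul_of_nonneg_left htot hBpos.le))
  have h6 : (B.card : ℝ) ^ 2 * A.card * (ε ^ 2 * A.card) ≤
      (B.card : ℝ) ^ 2 * A.card * (1 + ((A.card : ℝ) - 1) * (ε ^ 2 / 2)) := by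
    nlinarith [h5]
  have h7 : ε ^ 2 * A.card ≤ 1 + ((A.card : ℝ) - 1) * (ε ^ 2 / 2) :=
    le_of_mul_le_mul_left h6 (by positivity)
  have h8 : 2 ≤ ε ^ 2 * A.card := by
    rw [div_le_iff₀ (by positivity)] at hA
    linarith
  have h9 : 0 < ε ^ 2 := by positivity
  nlinarith

theorem append_mem_iff {M1 M2 : ℕ} (V : Fin (M1 + M2) → Finset ℤ) (x : Fin M1 → ℤ)
    (y : Fin M2 → ℤ) : Fin.append x y ∈ Fintype.piFinset V ↔
      x ∈ Fintype.piFinset (fun i => V (Fin.castAdd M2 i)) ∧
      y ∈ Fintype.piFinset (fun j => V (Fin.natAdd M1 j)) := by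
  simp only [Fintype.mem_piFinset]
  constructor
  · intro h
    refine ⟨fun i => ?_, fun j => ?_⟩
    · have := h (Fin.castAdd M2 i)
      rwa [Fin.append_left] at this
    · have := h (Fin.natAdd M1 j)
      rwa [Fin.append_right] at this
  · rintro ⟨h1, h2⟩ i
    refine Fin.addCases (fun i => ?_) (fun j => ?_) i
    · rw [Fin.append_left]; exact h1 i
    · rw [Fin.append_right]; exact h2 j

theorem sum_mem_eq {k : ℕ} {A : Type} [AddCommMonoid A] (I : Finset (Fin (k + 1)))
    (w : Fin (k + 1) → A) :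
    ∑ i ∈ I, w i = (if (0 : Fin (k + 1)) ∈ I then w 0 else 0) +
      ∑ j ∈ Finset.univ.filter (fun j : Fin k => j.succ ∈ I), w j.succ := by
  classical
  have h1 : ∑ i ∈ I, w i = ∑ i, if i ∈ I then w i else 0 := by
    rw [← Finset.sum_filter]
    congr 1
    ext; simp
  rw [h1, Fin.sum_univ_succ, Finset.sum_filter]

theorem cubb_int (k : ℕ) : ∀ ε : ℝ, 0 < ε → ∃ M0 : ℕ, ∀ M : ℕ, M0 ≤ M →
    ∀ V : Fin M → Finset ℤ, (∀ i, 2 ≤ (V i).card) → ∀ S : Finset (Fin M → ℤ),
    S ⊆ Fintype.piFinset V → ε * (Fintype.piFinset V).card ≤ S.card →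
    ∃ (y : Fin M → ℤ) (w : Fin k → Fin M → ℤ), LinearIndependent ℤ w ∧
      ∀ I : Finset (Fin k), y + ∑ i ∈ I, w i ∈ S := by
  classical
  induction k with
  | zero =>
    intro ε hε
    refine ⟨0, fun M _ V hV S hS hc => ?_⟩
    have hne : (Fintype.piFinset V).Nonempty := by
      rw [Fintype.piFinset_nonempty]
      intro i
      rw [← Finset.card_pos]
      have := hV i
      omega
    have h1 : (0:ℝ) < (Fintype.piFinset V).card := by exact_mod_cast Finset.card_pos.mpr hne
    have h2 : (0:ℝ) < S.card := lt_of_lt_of_le (mul_pos hε h1) hc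
    obtain ⟨y, hy⟩ : S.Nonempty := by
      rw [← Finset.card_pos]; exact_mod_cast h2
    refine ⟨y, fun i => i.elim0, linearIndependent_empty_type, fun I => ?_⟩
    have : I = ∅ := by
      ext i; exact i.elim0
    rw [this]; simpa using hy
  | succ k ih =>
    intro ε hε
    obtain ⟨M0', hM0'⟩ := ih (ε ^ 2 / 2) (by positivity)
    obtain ⟨M1, hM1⟩ : ∃ M1 : ℕ, 2 / ε ^ 2 ≤ (2:ℝ) ^ M1 := by
      obtain ⟨n, hn⟩ := pow_unbounded_of_one_lt (2 / ε ^ 2) (by norm_num : (1:ℝ) < 2)
      exact ⟨n, hn.le⟩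
    refine ⟨M1 + M0', fun M hM V hV S hS hc => ?_⟩
    obtain ⟨M2, rfl⟩ : ∃ M2, M = M1 + M2 := ⟨M - M1, by omega⟩
    set A := Fintype.piFinset (fun i : Fin M1 => V (Fin.castAdd M2 i)) with hAdef
    set B := Fintype.piFinset (fun j : Fin M2 => V (Fin.natAdd M1 j)) with hBdef
    have hAB : (Fintype.piFinset V).card = A.card * B.card := by
      rw [hAdef, hBdef, Fintype.card_piFinset, Fintype.card_piFinset, Fintype.card_piFinset,
        Fin.prod_univ_add]
    have hAcard : (2:ℝ) ^ M1 ≤ A.card := by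
      have : 2 ^ M1 ≤ A.card := by
        rw [hAdef, Fintype.card_piFinset]
        calc 2 ^ M1 = ∏ _i : Fin M1, 2 := by simp
          _ ≤ _ := Finset.prod_le_prod' fun i _ => hV _
      exact_mod_cast this
    have hBne : B.Nonempty := by
      rw [hBdef, Fintype.piFinset_nonempty]
      intro i
      rw [← Finset.card_pos]
      have := hV (Fin.natAdd M1 i)
      omega
    set S' : Finset ((Fin M1 → ℤ) × (Fin M2 → ℤ)) :=
      (A ×ˢ B).filter (fun xy => Fin.append xy.1 xy.2 ∈ S) with hS'
    have happ : ∀ v : Fin (M1 + M2) → ℤ, Fin.append (fun i => v (Fin.castAdd M2 i))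
        (fun j => v (Fin.natAdd M1 j)) = v := by
      intro v
      ext i
      refine Fin.addCases (fun i => ?_) (fun j => ?_) i
      · rw [Fin.append_left]
      · rw [Fin.append_right]
    have hcardS : S.card = S'.card := by
      refine Finset.card_nbij' (fun v => (fun i => v (Fin.castAdd M2 i),
        fun j => v (Fin.natAdd M1 j))) (fun xy => Fin.append xy.1 xy.2) ?_ ?_ ?_ ?_
      · intro v hv
        have h1 := hS hv
        have h2 : v ∈ S := hv
        rw [← happ v, append_mem_iff] at h1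
        rw [Finset.mem_coe, hS', Finset.mem_filter, Finset.mem_product]
        refine ⟨h1, ?_⟩
        simp only
        rw [happ]; exact h2
      · intro xy hxy
        rw [Finset.mem_coe, hS', Finset.mem_filter] at hxy
        exact hxy.2
      · intro v _
        exact happ v
      · rintro ⟨x, y⟩ _
        simp only [Fin.append_left, Fin.append_right]
    rw [hAB, hcardS] at hc
    push_cast at hc
    obtain ⟨x, hx, x', hx', hne, hcard⟩ := step_pair A B S' ε hε hBne
      (Finset.filter_subset _ _) hc (le_trans hM1 hAcard)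
    obtain ⟨y, w, hw, hmem⟩ := hM0' M2 (by omega) (fun j => V (Fin.natAdd M1 j))
      (fun j => hV _) _ (Finset.filter_subset _ _) hcard
    refine ⟨Fin.append x y, Fin.cons (Fin.append (x' - x) 0) (fun i => Fin.append 0 (w i)),
      ?_, ?_⟩
    · rw [Fintype.linearIndependent_iff]
      intro g hg
      rw [Fin.sum_univ_succ] at hg
      simp only [Fin.cons_zero, Fin.cons_succ] at hg
      have hg0 : g 0 = 0 := by
        obtain ⟨i, hi⟩ := Function.ne_iff.mp hne
        have h1 := congrFun hg (Fin.castAdd M2 i)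
        rw [Pi.add_apply, Pi.smul_apply, Fin.append_left, Finset.sum_apply] at h1
        have h2 : ∀ j ∈ (Finset.univ : Finset (Fin k)),
            (g j.succ • (Fin.append 0 (w j) : Fin (M1 + M2) → ℤ)) (Fin.castAdd M2 i) = 0 := by
          intro j _
          rw [Pi.smul_apply, Fin.append_left]
          simp
        rw [Finset.sum_eq_zero h2, add_zero, smul_eq_mul, Pi.zero_apply] at h1
        rcases mul_eq_zero.mp h1 with h | h
        · exact h
        · exact absurd (sub_eq_zero.mp h).symm hi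
      have hgs : ∑ j, g j.succ • w j = 0 := by
        ext i
        have h1 := congrFun hg (Fin.natAdd M1 i)
        rw [Pi.add_apply, Pi.smul_apply, Fin.append_right, Finset.sum_apply] at h1
        rw [Finset.sum_apply, Pi.zero_apply]
        rw [Pi.zero_apply, smul_zero, zero_add, Pi.zero_apply] at h1
        rw [← h1]
        refine Finset.sum_congr rfl fun j _ => ?_
        rw [Pi.smul_apply, Pi.smul_apply, Fin.append_right]
      intro i
      refine Fin.cases hg0 (fun j => ?_) i
      exact (Fintype.linearIndependent_iff.mp hw) (fun j => g j.succ) hgs j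
    · intro I
      have h1 := hmem (Finset.univ.filter (fun j : Fin k => j.succ ∈ I))
      rw [Finset.mem_filter] at h1
      obtain ⟨_, h2, h3⟩ := h1
      rw [hS', Finset.mem_filter] at h2 h3
      rw [sum_mem_eq]
      simp only [Fin.cons_zero, Fin.cons_succ]
      have key : Fin.append x y + ((if (0 : Fin (k + 1)) ∈ I then
          (Fin.append (x' - x) 0 : Fin (M1 + M2) → ℤ) else 0) +
          ∑ j ∈ Finset.univ.filter (fun j : Fin k => j.succ ∈ I),
            (Fin.append 0 (w j) : Fin (M1 + M2) → ℤ)) =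
          Fin.append (if (0 : Fin (k + 1)) ∈ I then x' else x)
            (y + ∑ j ∈ Finset.univ.filter (fun j : Fin k => j.succ ∈ I), w j) := by
        ext i
        refine Fin.addCases (fun i => ?_) (fun j => ?_) i
        · rw [Pi.add_apply, Pi.add_apply, Fin.append_left, Fin.append_left, Finset.sum_apply]
          have h2 : ∀ j ∈ Finset.univ.filter (fun j : Fin k => j.succ ∈ I),
              (Fin.append 0 (w j) : Fin (M1 + M2) → ℤ) (Fin.castAdd M2 i) = 0 := by
            intro j _
            rw [Fin.append_left]; rfl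
          rw [Finset.sum_eq_zero h2]
          split_ifs with h
          · rw [Fin.append_left, Pi.sub_apply]; ring
          · rw [Pi.zero_apply]; ring
        · rw [Pi.add_apply, Pi.add_apply, Fin.append_right, Fin.append_right, Finset.sum_apply,
            Pi.add_apply, Finset.sum_apply]
          have h2 : ∑ c ∈ Finset.univ.filter (fun j : Fin k => j.succ ∈ I),
              (Fin.append 0 (w c) : Fin (M1 + M2) → ℤ) (Fin.natAdd M1 j) =
              ∑ c ∈ Finset.univ.filter (fun j : Fin k => j.succ ∈ I), w c j :=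
            Finset.sum_congr rfl fun c _ => by rw [Fin.append_right]
          rw [h2]
          split_ifs with h
          · rw [Fin.append_right, Pi.zero_apply, zero_add]
          · rw [Pi.zero_apply, zero_add]
      rw [key]
      split_ifs with h
      · exact h3.2
      · exact h2.2

theorem cubb : T_CUBB := by
  classical
  intro k ε hε
  obtain ⟨M0, hM0⟩ := cubb_int k ε hε
  refine ⟨M0, fun M hM mu hmu V hV => ?_⟩
  intro S hS hc
  have hmuZ : LinearIndependent ℤ mu := (LinearIndependent.iff_fractionRing ℤ ℚ).mpr hmu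
  set L : (Fin M → ℤ) →ₗ[ℤ] ℂ := Fintype.linearCombination ℤ mu with hL
  have hLapp : ∀ v : Fin M → ℤ, L v = ∑ j, (v j : ℂ) * mu j := by
    intro v
    rw [hL, Fintype.linearCombination_apply]
    refine Finset.sum_congr rfl fun j _ => ?_
    rw [zsmul_eq_mul]
  have hLinj : Function.Injective L := by
    rw [injective_iff_map_eq_zero]
    intro v hv
    rw [hL, Fintype.linearCombination_apply] at hv
    ext j
    exact (Fintype.linearIndependent_iff.mp hmuZ) v hv j
  have himg : (Fintype.piFinset V).image (fun v => ∑ j, (v j : ℂ) * mu j) =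
      (Fintype.piFinset V).image L :=
    Finset.image_congr fun v _ => (hLapp v).symm
  rw [himg] at hS hc
  rw [Finset.card_image_of_injective _ hLinj] at hc
  set S' : Finset (Fin M → ℤ) := (Fintype.piFinset V).filter (fun v => L v ∈ S) with hS'
  have hcard : S.card = S'.card := by
    have : S = S'.image L := by
      ext z
      rw [Finset.mem_image]
      constructor
      · intro hz
        obtain ⟨v, hv, hvz⟩ := Finset.mem_image.mp (hS hz)
        refine ⟨v, ?_, hvz⟩
        rw [hS', Finset.mem_filter]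
        exact ⟨hv, by rw [hvz]; exact hz⟩
      · rintro ⟨v, hv, rfl⟩
        rw [hS', Finset.mem_filter] at hv
        exact hv.2
    rw [this, Finset.card_image_of_injective _ hLinj]
  rw [hcard] at hc
  obtain ⟨y, w, hw, hmem⟩ := hM0 M hM V hV S' (Finset.filter_subset _ _) hc
  refine ⟨L y, fun i => L (w i), ?_, fun I => ?_⟩
  · rw [← LinearIndependent.iff_fractionRing ℤ ℚ]
    exact hw.map' L (LinearMap.ker_eq_bot.mpr hLinj)
  · have h1 := hmem I
    rw [hS', Finset.mem_filter] at h1
    have h2 := h1.2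
    rw [map_add, map_sum] at h2
    exact h2

end Pool.Agent.H62.BF
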