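import Pool.Agent.H72.BF.Targets4

open Polynomial Finset Filter
open Pool.Agent.H72.BF

namespace Pool.Agent.H62.BF

theorem cube (hTK : T_TK) : T_CUBE := by
  intro k
  induction k with
  | zero =>
    intro δ E hδ
    refine ⟨1, fun x hx S hS hc => ?_⟩
    have hx0 : (0:ℝ) < x := by exact_mod_cast hx
    have hpos : (0:ℝ) < S.card := lt_of_lt_of_le (mul_pos hδ hx0) hc
    obtain ⟨m, hm⟩ : S.Nonempty := by
      rw [← Finset.card_pos]; exact_mod_cast hpos
    refine ⟨fun i => i.elim0, m, (Finset.mem_Icc.mp (hS hm)).1, fun i => i.elim0, ?_, fun ε => ?_⟩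
    · intro a; exact a.1.elim0
    · simpa using hm
  | succ k ih =>
    intro δ E hδ
    obtain ⟨Pr, δ', x0, hδ', hPr, hstep⟩ := hTK δ E hδ
    obtain ⟨x1, hx1⟩ := ih δ' (E ∪ Pr) hδ'
    refine ⟨max x0 x1, fun x hx S hS hc => ?_⟩
    obtain ⟨p, hp, q, hq, hpq, hcard⟩ := hstep x (le_trans (le_max_left _ _) hx) S hS hc
    obtain ⟨P, m, hm, hP, hinj, hmem⟩ :=
      hx1 x (le_trans (le_max_right _ _) hx) _ (Finset.filter_subset _ _) hcard
    have hpq2 : ∀ e : Fin 2, (![p, q] : Fin 2 → ℕ) e ∈ Pr := by
      intro e; fin_cases e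
      · exact hp
      · exact hq
    have hne : ∀ (e e' : Fin 2) (i : Fin k), (![p, q] : Fin 2 → ℕ) e ≠ P i e' := by
      intro e e' i h
      exact (hP i e').2 (Finset.mem_union_right _ (h ▸ hpq2 e))
    refine ⟨Fin.cons ![p, q] P, m, hm, ?_, ?_, ?_⟩
    · intro i
      refine Fin.cases ?_ (fun j => ?_) i
      · intro e
        rw [Fin.cons_zero]
        exact hPr _ (hpq2 e)
      · intro e
        rw [Fin.cons_succ]
        exact ⟨(hP j e).1, fun h => (hP j e).2 (Finset.mem_union_left _ h)⟩
    · rintro ⟨i, e⟩ ⟨i', e'⟩ h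
      simp only at h
      revert h
      refine Fin.cases ?_ (fun j => ?_) i <;> refine Fin.cases ?_ (fun j' => ?_) i'
      · intro h
        rw [Fin.cons_zero] at h
        have : e = e' := by
          fin_cases e <;> fin_cases e'
          · rfl
          · exact absurd h hpq
          · exact absurd h.symm hpq
          · rfl
        rw [this]
      · intro h
        rw [Fin.cons_zero, Fin.cons_succ] at h
        exact absurd h (hne e e' j')
      · intro h
        rw [Fin.cons_zero, Fin.cons_succ] at h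
        exact absurd h.symm (hne e' e j)
      · intro h
        rw [Fin.cons_succ, Fin.cons_succ] at h
        have := @hinj (j, e) (j', e') h
        rw [Prod.mk.injEq] at this
        rw [this.1, this.2]
    · intro ε
      rw [Fin.prod_univ_succ]
      simp only [Fin.cons_zero, Fin.cons_succ]
      have h1 := hmem (fun i => ε i.succ)
      rw [Finset.mem_filter] at h1
      have h2 : ∀ e : Fin 2, (![p, q] : Fin 2 → ℕ) e * (m * ∏ i, P i (ε i.succ)) ∈ S := by
        intro e; fin_cases e
        · exact h1.2.1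
        · exact h1.2.2
      have h3 := h2 (ε 0)
      have h4 : m * ((![p, q] : Fin 2 → ℕ) (ε 0) * ∏ i, P i (ε i.succ)) =
          (![p, q] : Fin 2 → ℕ) (ε 0) * (m * ∏ i, P i (ε i.succ)) := by ring
      rw [h4]; exact h3

end Pool.Agent.H62.BF
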