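import Pool.Agent.H72.BF.Targets3
import Pool.Agent.H57.BF.QCL

/-! Module QADM of the board bf_modules (MP_3cf473_nt). -/

open Finset Polynomial

namespace Pool.Agent.H62.BF

open Pool.Agent.H72.BF

section lemmas

variable {K F : Type} [Field K] [Field F] [Algebra K F] {t : F}

/-- square roots of polynomials of degree at most two in the field `K(t)` are polynomials -/
theorem sqrt_poly (hinj : Function.Injective (aeval t : K[X] → F)) (s : F)
    (hs : s ∈ IntermediateField.adjoin K {t}) (q : K[X]) (hq : q.natDegree ≤ 2)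
    (h : s ^ 2 = aeval t q) : ∃ g : K[X], g.natDegree ≤ 1 ∧ s = aeval t g := by
  obtain ⟨a, b, hab⟩ := (IntermediateField.mem_adjoin_simple_iff K s).1 hs
  by_cases hb : aeval t b = 0
  · exact ⟨0, by simp, by rw [hab, hb]; simp⟩
  have hb0 : b ≠ 0 := by
    rintro rfl
    simp at hb
  have h1 : a ^ 2 = q * b ^ 2 := by
    apply hinj
    rw [map_pow, map_mul, map_pow, ← h, hab]
    field_simp
  have h2 : b ∣ a := by
    rw [← UniqueFactorizationMonoid.pow_dvd_pow_iff_dvd (n := 2) two_ne_zero, h1]
    exact dvd_mul_left _ _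
  obtain ⟨g, hg⟩ := h2
  have h3 : g ^ 2 = q := by
    rw [hg] at h1
    have h4 : b ^ 2 * g ^ 2 = b ^ 2 * q := by rw [← mul_pow, h1]; ring
    exact mul_left_cancel₀ (pow_ne_zero 2 hb0) h4
  refine ⟨g, ?_, ?_⟩
  · have h5 : (g ^ 2).natDegree = 2 * g.natDegree := natDegree_pow g 2
    rw [h3] at h5
    omega
  · rw [hab, hg, map_mul]
    field_simp

/-- proportional square roots outside `K(t)` are proportional over `K` -/
theorem prop_const [IsAlgClosed K] (hinj : Function.Injective (aeval t : K[X] → F)) (s s' v : F)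
    (q q' : K[X]) (hq : q.natDegree ≤ 2) (hq' : q'.natDegree ≤ 2) (h : s ^ 2 = aeval t q)
    (h' : s' ^ 2 = aeval t q') (hs : s ∉ IntermediateField.adjoin K {t})
    (hs' : s' ∉ IntermediateField.adjoin K {t}) (hv : v ∈ IntermediateField.adjoin K {t})
    (hvs : s' = v * s) : ∃ c : K, v = algebraMap K F c := by
  have hpm : ∀ g : K[X], aeval t g ∈ IntermediateField.adjoin K {t} := by
    intro g
    rw [IntermediateField.mem_adjoin_simple_iff]
    exact ⟨g, 1, by simp⟩
  -- `q` and `q'` are not squares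
  have key : ∀ (s : F) (q g : K[X]), s ^ 2 = aeval t q → s ∉ IntermediateField.adjoin K {t} →
      q.natDegree ≤ 2 → g ^ 2 ∣ q → g.natDegree = 0 := by
    intro s q g hsq hs hq hgq
    by_contra hdeg
    obtain ⟨w, hw⟩ := hgq
    have hq0 : q ≠ 0 := by
      rintro rfl
      rw [map_zero] at hsq
      have : s = 0 := pow_eq_zero_iff (two_ne_zero) |>.1 hsq
      rw [this] at hs
      exact hs (zero_mem _)
    have hg0 : g ≠ 0 := by
      rintro rfl
      simp at hdeg
    have hw0 : w ≠ 0 := by
      rintro rfl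
      rw [mul_zero] at hw
      exact hq0 hw
    have h5 : q.natDegree = 2 * g.natDegree + w.natDegree := by
      rw [hw, natDegree_mul (pow_ne_zero 2 hg0) hw0, natDegree_pow]
    have h6 : w.natDegree = 0 := by omega
    obtain ⟨c, hc⟩ := natDegree_eq_zero.1 h6
    obtain ⟨d, hd⟩ := IsAlgClosed.exists_pow_nat_eq c (n := 2) (by norm_num)
    have h7 : q = (C d * g) ^ 2 := by
      rw [hw, ← hc, ← hd, mul_pow, ← C_pow]
      ring
    have h8 : s ^ 2 = (aeval t (C d * g)) ^ 2 := by rw [hsq, h7, map_pow]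
    rcases sq_eq_sq_iff_eq_or_eq_neg.1 h8 with h9 | h9
    · exact hs (h9 ▸ hpm _)
    · exact hs (h9 ▸ neg_mem (hpm _))
  obtain ⟨a, b, hab⟩ := (IntermediateField.mem_adjoin_simple_iff K v).1 hv
  have hv0 : v ≠ 0 := by
    rintro rfl
    rw [zero_mul] at hvs
    rw [hvs] at hs'
    exact hs' (zero_mem _)
  have hb : aeval t b ≠ 0 := by
    intro hb
    rw [hb, div_zero] at hab
    exact hv0 hab
  have ha : aeval t a ≠ 0 := by
    intro ha
    rw [ha, zero_div] at hab
    exact hv0 hab
  have ha0 : a ≠ 0 := by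
    rintro rfl
    simp at ha
  obtain ⟨a', b', c', hrel, hca, hcb⟩ := UniqueFactorizationMonoid.exists_reduced_factors a ha0 b
  have hc' : aeval t c' ≠ 0 := by
    intro hc
    rw [← hca, map_mul, hc, zero_mul] at ha
    exact ha rfl
  have hb' : aeval t b' ≠ 0 := by
    intro hc
    rw [← hcb, map_mul, hc, mul_zero] at hb
    exact hb rfl
  have hv' : v = aeval t a' / aeval t b' := by
    rw [hab, ← hca, ← hcb, map_mul, map_mul]
    field_simp
  have hcop : IsCoprime a' b' := hrel.isCoprime
  have hid : b' ^ 2 * q' = a' ^ 2 * q := by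
    apply hinj
    rw [map_mul, map_mul, map_pow, map_pow, ← h, ← h', hvs, hv']
    field_simp
  have hb1 : b' ^ 2 ∣ a' ^ 2 * q := by
    rw [← hid]
    exact dvd_mul_right _ _
  have ha1 : a' ^ 2 ∣ b' ^ 2 * q' := by
    rw [hid]
    exact dvd_mul_right _ _
  have hb2 : b' ^ 2 ∣ q := (hcop.symm.pow (m := 2) (n := 2)).dvd_of_dvd_mul_left hb1
  have ha2 : a' ^ 2 ∣ q' := (hcop.pow (m := 2) (n := 2)).dvd_of_dvd_mul_left ha1
  have hbd := key s q b' h hs hq hb2
  have had := key s' q' a' h' hs' hq' ha2
  obtain ⟨x, hx⟩ := natDegree_eq_zero.1 hbd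
  obtain ⟨z, hz⟩ := natDegree_eq_zero.1 had
  have hfin : v = algebraMap K F (z / x) := by
    rw [hv', ← hx, ← hz, aeval_C, aeval_C, map_div₀]
  exact Exists.intro (z / x) hfin

/-- four independent elements do not become polynomials of degree at most two -/
theorem no_span (y z : F) (hli : LinearIndependent K ![1, t, y, z]) (D : F) (hD : D ≠ 0)
    (p1 p2 p3 p4 : K[X]) (h1 : D = aeval t p1) (h2 : D * t = aeval t p2)
    (h3 : D * y = aeval t p3) (h4 : D * z = aeval t p4) (d1 : p1.degree < 3)
    (d2 : p2.degree < 3) (d3 : p3.degree < 3) (d4 : p4.degree < 3) : False := by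
  have e1 : LinearIndependent K (fun i => D * ![1, t, y, z] i) :=
    hli.map' (LinearMap.mulLeft K D) (LinearMap.ker_eq_bot.2 (mul_right_injective₀ hD))
  have e2 : LinearIndependent K ![p1, p2, p3, p4] := by
    apply LinearIndependent.of_comp (aeval t : K[X] →ₐ[K] F).toLinearMap
    have e0 : (⇑(aeval t : K[X] →ₐ[K] F).toLinearMap ∘ ![p1, p2, p3, p4]) =
        fun i => D * ![1, t, y, z] i := by
      funext i
      fin_cases i
      · simpa using h1.symm
      · simpa using h2.symm
      · simpa using h3.symm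
      · simpa using h4.symm
    rw [e0]
    exact e1
  have e3 := finrank_span_eq_card e2
  have hfin : Module.Finite K (degreeLT K 3) := Module.Finite.equiv (degreeLTEquiv K 3).symm
  have e4 : Submodule.span K (Set.range ![p1, p2, p3, p4]) ≤ degreeLT K 3 := by
    rw [Submodule.span_le]
    rintro _ ⟨i, rfl⟩
    rw [SetLike.mem_coe, mem_degreeLT]
    fin_cases i
    · exact d1
    · exact d2
    · exact d3
    · exact d4
  have e5 := Submodule.finrank_mono e4
  rw [e3, (degreeLTEquiv K 3).finrank_eq] at e5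
  simp at e5

/-- a polynomial of degree at most one with a root -/
theorem deg_one (e : K[X]) (he : e ≠ 0) (hd : e.natDegree ≤ 1) (x : K) (hx : e.eval x = 0) :
    ∃ c : K, c ≠ 0 ∧ e = (X - C x) * C c := by
  obtain ⟨w, hw⟩ := dvd_iff_isRoot.2 hx
  have hw0 : w ≠ 0 := by
    rintro rfl
    rw [mul_zero] at hw
    exact he hw
  have h1 : e.natDegree = 1 + w.natDegree := by
    rw [hw, natDegree_mul (X_sub_C_ne_zero x) hw0, natDegree_X_sub_C]
  obtain ⟨c, hc⟩ := natDegree_eq_zero.1 (show w.natDegree = 0 by omega)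
  refine ⟨c, ?_, ?_⟩
  · rintro rfl
    rw [C_0] at hc
    exact hw0 hc.symm
  · rw [hc]
    exact hw

theorem eq_lin (g : K[X]) (hg : g.natDegree ≤ 1) :
    aeval t g = algebraMap K F (g.coeff 0) + algebraMap K F (g.coeff 1) * t := by
  conv_lhs => rw [eq_X_add_C_of_natDegree_le_one hg]
  simp [add_comm]

end lemmas

/-- QADM -/
theorem qadm (h1 : T_QCL) (h2 : T_SQI) : T_QADM := by
  classical
  intro K F _ _ _ _ _ t r y a hq hli hr ha hsum
  have hother : ∀ i : Fin r, ∃ j, i ≠ j := by
    intro i
    by_cases hi : (i : ℕ) = 0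
    · exact ⟨⟨1, by omega⟩, fun h => by have := congrArg Fin.val h; simp at this; omega⟩
    · exact ⟨⟨0, by omega⟩, fun h => by have := congrArg Fin.val h; simp at this; omega⟩
  have hli3 : ∀ i, LinearIndependent K ![1, t, y i] := by
    intro i
    obtain ⟨j, hij⟩ := hother i
    have h3 := (hli i j hij).comp (Fin.castSucc : Fin 3 → Fin 4) (Fin.castSucc_injective 3)
    have h4 : (![1, t, y i, y j] : Fin 4 → F) ∘ (Fin.castSucc : Fin 3 → Fin 4) = ![1, t, y i] := by
      funext k
      fin_cases k <;> rfl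
    rwa [h4] at h3
  have i0 : Fin r := ⟨0, by omega⟩
  have hinj : Function.Injective (aeval t : K[X] → F) := by
    rw [← transcendental_iff_injective]
    rintro ⟨p, hp, hpt⟩
    obtain ⟨x, hx⟩ := Pool.Agent.H57.BF.alg_mem t p hp hpt
    have h3 := Fintype.linearIndependent_iff.1 (hli3 i0) ![-x, 1, 0] (by
      rw [Fin.sum_univ_three]
      simp [Algebra.smul_def, hx])
    have h4 := h3 1
    simp at h4
  have hpm : ∀ g : K[X], aeval t g ∈ IntermediateField.adjoin K {t} := by
    intro g
    rw [IntermediateField.mem_adjoin_simple_iff]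
    exact ⟨g, 1, by simp⟩
  have notspan : ∀ i (g : K[X]), g.natDegree ≤ 1 → y i ≠ aeval t g := by
    intro i g hg hyg
    rw [eq_lin g hg] at hyg
    have h3 := Fintype.linearIndependent_iff.1 (hli3 i) ![g.coeff 0, g.coeff 1, -1] (by
      rw [Fin.sum_univ_three]
      simp only [Matrix.cons_val_zero, Matrix.cons_val_one, Matrix.cons_val_two, Algebra.smul_def,
        Matrix.head_cons, Matrix.tail_cons, map_neg, map_one, Matrix.cons_val]
      rw [hyg]
      ring)
    have h4 := h3 2
    simp at h4
  have cls : ∀ i, (∃ l q : K[X], q.natDegree ≤ 2 ∧ l.natDegree ≤ 1 ∧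
      (y i - aeval t l) ^ 2 = aeval t q) ∨ (∃ e q : K[X], e ≠ 0 ∧ e.natDegree ≤ 1 ∧
      q.natDegree ≤ 2 ∧ aeval t e * y i = aeval t q) := by
    intro i
    have hqd : ∀ q0 q1 q2 : K, (C q0 + C q1 * X + C q2 * X ^ 2 : K[X]).natDegree ≤ 2 := by
      intro q0 q1 q2
      compute_degree
    have hld : ∀ q0 q1 : K, (C q0 + C q1 * X : K[X]).natDegree ≤ 1 := by
      intro q0 q1
      compute_degree
    rcases h1 K F t (y i) (hli3 i) (hq i) with ⟨l0, l1, q0, q1, q2, h⟩ | ⟨e0, e1, q0, q1, q2, he, h⟩
    · left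
      refine ⟨C l0 + C l1 * X, C q0 + C q1 * X + C q2 * X ^ 2, hqd _ _ _, hld _ _, ?_⟩
      simp only [map_add, map_mul, map_pow, aeval_C, aeval_X]
      rw [← h]
      ring
    · right
      refine ⟨C e0 + C e1 * X, C q0 + C q1 * X + C q2 * X ^ 2, ?_, hld _ _, hqd _ _ _, ?_⟩
      · intro h0
        have c0 := congrArg (fun p => Polynomial.coeff p 0) h0
        have c1 := congrArg (fun p => Polynomial.coeff p 1) h0
        simp [coeff_X, coeff_C] at c0 c1
        rcases he with he | he
        · exact he c0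
        · exact he c1
      · simp only [map_add, map_mul, map_pow, aeval_C, aeval_X]
        rw [h]
  have hnone : ∀ i, ¬ (∃ l q : K[X], q.natDegree ≤ 2 ∧ l.natDegree ≤ 1 ∧
      (y i - aeval t l) ^ 2 = aeval t q) := by
    intro k0 hk0
    have hdata : ∀ i : {i // ∃ l q : K[X], q.natDegree ≤ 2 ∧ l.natDegree ≤ 1 ∧
      (y i - aeval t l) ^ 2 = aeval t q}, ∃ l q : K[X], q.natDegree ≤ 2 ∧ l.natDegree ≤ 1 ∧
      (y i - aeval t l) ^ 2 = aeval t q := fun i => i.2
    choose l q hqd hld hsq using hdata
    have hsL : ∀ i, y i.1 - aeval t (l i) ∉ IntermediateField.adjoin K {t} := by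
      intro i hi
      obtain ⟨g, hg, hg2⟩ := sqrt_poly hinj _ hi (q i) (hqd i) (hsq i)
      refine notspan i.1 (l i + g) ?_ ?_
      · exact (natDegree_add_le _ _).trans (max_le (hld i) hg)
      · rw [map_add, ← hg2]
        ring
    have hcz : CharZero (IntermediateField.adjoin K {t}) :=
      charZero_of_injective_algebraMap (algebraMap K (IntermediateField.adjoin K {t})).injective
    have hind := h2 (IntermediateField.adjoin K {t}) F
      (Option {i // ∃ l q : K[X], q.natDegree ≤ 2 ∧ l.natDegree ≤ 1 ∧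
        (y i - aeval t l) ^ 2 = aeval t q}) (fun o => o.elim 1 (fun i => y i.1 - aeval t (l i)))
      (by
        rintro (_ | i)
        · exact ⟨1, by simp⟩
        · exact ⟨⟨aeval t (q i), hpm _⟩, hsq i⟩)
      (by
        rintro (_ | i)
        · exact one_ne_zero
        · intro h0
          have h0' : y i.1 - aeval t (l i) = 0 := h0
          exact hsL i (h0' ▸ zero_mem _))
      (by
        rintro (_ | i) (_ | i') hne ⟨v, hv⟩
        · exact hne rfl
        · have hv' : y i'.1 - aeval t (l i') = (v : F) * 1 := hv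
          exact hsL i' (by rw [hv', mul_one]; exact v.2)
        · have hv' : (1 : F) = (v : F) * (y i.1 - aeval t (l i)) := hv
          have h5 : y i.1 - aeval t (l i) = (v : F)⁻¹ := eq_inv_of_mul_eq_one_right hv'.symm
          exact hsL i (by rw [h5]; exact inv_mem v.2)
        · have hv' : y i'.1 - aeval t (l i') = (v : F) * (y i.1 - aeval t (l i)) := hv
          obtain ⟨c, hc⟩ := prop_const hinj _ _ v (q i) (q i') (hqd i) (hqd i') (hsq i) (hsq i')
            (hsL i) (hsL i') v.2 hv'
          have hii : i.1 ≠ i'.1 := fun h => hne (by rw [Subtype.ext h])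
          rw [hc, eq_lin _ (hld i), eq_lin _ (hld i')] at hv'
          have h3 := Fintype.linearIndependent_iff.1 (hli i.1 i'.1 hii)
            ![c * (l i).coeff 0 - (l i').coeff 0, c * (l i).coeff 1 - (l i').coeff 1, -c, 1] (by
            rw [Fin.sum_univ_four]
            simp only [Matrix.cons_val_zero, Matrix.cons_val_one, Matrix.cons_val_two,
              Algebra.smul_def, Matrix.head_cons, Matrix.tail_cons, map_neg, map_one,
              Matrix.cons_val, map_sub, map_mul]
            linear_combination hv')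
          have h4 := h3 3
          simp at h4)
    have hzL : (∑ i : {i // ∃ l q : K[X], q.natDegree ≤ 2 ∧ l.natDegree ≤ 1 ∧
        (y i - aeval t l) ^ 2 = aeval t q}, algebraMap K F (a i.1) * aeval t (l i)) +
        ∑ i : {i // ¬ ∃ l q : K[X], q.natDegree ≤ 2 ∧ l.natDegree ≤ 1 ∧
        (y i - aeval t l) ^ 2 = aeval t q}, algebraMap K F (a i.1) * y i.1 ∈
        IntermediateField.adjoin K {t} := by
      refine add_mem (sum_mem fun i _ => mul_mem (IntermediateField.algebraMap_mem _ _) (hpm _))
        (sum_mem fun i _ => mul_mem (IntermediateField.algebraMap_mem _ _) ?_)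
      obtain ⟨e, q', he0, -, -, hey⟩ := (cls i.1).resolve_left i.2
      have hee : aeval t e ≠ 0 := fun h => he0 (hinj (by rw [h, map_zero]))
      have h6 : y i.1 = aeval t q' / aeval t e := by
        rw [← hey]
        field_simp
      rw [h6]
      exact div_mem (hpm _) (hpm _)
    have hrel := Fintype.linearIndependent_iff.1 hind
      (fun o => o.elim ⟨_, hzL⟩ (fun i => algebraMap K (IntermediateField.adjoin K {t}) (a i.1))) (by
        rw [Fintype.sum_option]
        simp only [Option.elim_none, Option.elim_some, Algebra.smul_def]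
        rw [← hsum, ← Fintype.sum_subtype_add_sum_subtype (fun i => ∃ l q : K[X],
          q.natDegree ≤ 2 ∧ l.natDegree ≤ 1 ∧ (y i - aeval t l) ^ 2 = aeval t q)
          (fun i => algebraMap K F (a i) * y i)]
        have e8 : ∀ i : {i // ∃ l q : K[X], q.natDegree ≤ 2 ∧ l.natDegree ≤ 1 ∧
            (y i - aeval t l) ^ 2 = aeval t q}, algebraMap (IntermediateField.adjoin K {t}) F
            (algebraMap K (IntermediateField.adjoin K {t}) (a i.1)) *
            (y i.1 - aeval t (l i)) = algebraMap K F (a i.1) * y i.1 -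
            algebraMap K F (a i.1) * aeval t (l i) := by
          intro i
          rw [← IsScalarTower.algebraMap_apply, mul_sub]
        rw [Finset.sum_congr rfl (fun i _ => e8 i), Finset.sum_sub_distrib]
        rw [mul_one]
        show ((_ : F) + _) + (_ - _) = _
        ring)
    have h7 := hrel (some ⟨k0, hk0⟩)
    simp only [Option.elim_some] at h7
    rw [map_eq_zero] at h7
    exact ha k0 h7
  -- all of the second type
  have hII := fun i => (cls i).resolve_left (hnone i)
  choose e q he0 hed hqd hey using hII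
  have hevX : ∀ x : K, aeval t (X - C x : K[X]) ≠ 0 := by
    intro x h
    exact X_sub_C_ne_zero x (hinj (by rw [h, map_zero]))
  have hdlt : ∀ p : K[X], p.natDegree ≤ 2 → p.degree < 3 := by
    intro p hp
    refine lt_of_le_of_lt (degree_le_of_natDegree_le hp) ?_
    norm_num
  have hcop : ∀ i j, i ≠ j → ∀ x : K, (e i).eval x = 0 → (e j).eval x ≠ 0 := by
    intro i j hij x hi hj
    obtain ⟨c, hc0, hc⟩ := deg_one (e i) (he0 i) (hed i) x hi
    obtain ⟨c', hc0', hc'⟩ := deg_one (e j) (he0 j) (hed j) x hj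
    have h3 : ∀ (k : Fin r) (c : K), c ≠ 0 → e k = (X - C x) * C c →
        aeval t (X - C x : K[X]) * y k = aeval t (C c⁻¹ * q k) := by
      intro k c hc0 hc
      rw [map_mul, ← hey k, hc, map_mul, aeval_C, aeval_C, map_inv₀]
      have : algebraMap K F c ≠ 0 := by simpa using hc0
      field_simp
    refine no_span (y i) (y j) (hli i j hij) (aeval t (X - C x : K[X])) (hevX x) (X - C x)
      ((X - C x) * X) (C c⁻¹ * q i) (C c'⁻¹ * q j) rfl (by rw [map_mul, aeval_X])
      (h3 i c hc0 hc) (h3 j c' hc0' hc') (hdlt _ ?_) (hdlt _ ?_) (hdlt _ ?_) (hdlt _ ?_)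
    · rw [natDegree_X_sub_C]; norm_num
    · refine natDegree_mul_le.trans ?_
      rw [natDegree_X_sub_C, natDegree_X]
    · exact (natDegree_C_mul_le _ _).trans (hqd i)
    · exact (natDegree_C_mul_le _ _).trans (hqd j)
  have hex : ∃ k, (e k).natDegree ≠ 0 := by
    by_contra hcon
    push Not at hcon
    obtain ⟨j, hij⟩ := hother i0
    have h3 : ∀ k : Fin r, (1 : F) * y k = aeval t (C ((e k).coeff 0)⁻¹ * q k) := by
      intro k
      have h4 := eq_C_of_natDegree_eq_zero (hcon k)
      have h5 : (e k).coeff 0 ≠ 0 := by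
        intro h6
        rw [h6, C_0] at h4
        exact he0 k h4
      have h6 : algebraMap K F ((e k).coeff 0) ≠ 0 := by simpa using h5
      have h7 := hey k
      rw [h4, aeval_C] at h7
      rw [map_mul, ← h7, aeval_C, map_inv₀]
      field_simp
    refine no_span (y i0) (y j) (hli i0 j hij) 1 one_ne_zero 1 X _ _ (by simp) (by simp)
      (h3 i0) (h3 j) (hdlt _ (by simp)) (hdlt _ (by rw [natDegree_X]; norm_num)) (hdlt _ ?_)
      (hdlt _ ?_)
    · exact (natDegree_C_mul_le _ _).trans (hqd i0)
    · exact (natDegree_C_mul_le _ _).trans (hqd j)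
  obtain ⟨k, hk⟩ := hex
  obtain ⟨x, hx⟩ := IsAlgClosed.exists_root (e k) (fun h => hk (natDegree_eq_zero_iff_degree_le_zero.2 h.le))
  have hx' : (e k).eval x = 0 := hx
  have hpoly : ∑ i, C (a i) * q i * ∏ j ∈ univ.erase i, e j = 0 := by
    apply hinj
    rw [map_zero, map_sum]
    have h3 : ∀ i, aeval t (C (a i) * q i * ∏ j ∈ univ.erase i, e j) =
        (∏ j, aeval t (e j)) * (algebraMap K F (a i) * y i) := by
      intro i
      rw [map_mul, map_mul, aeval_C, ← hey i, map_prod, ← Finset.mul_prod_erase univ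
        (fun j => aeval t (e j)) (Finset.mem_univ i)]
      ring
    rw [Finset.sum_congr rfl (fun i _ => h3 i), ← Finset.mul_sum, hsum, mul_zero]
  have hev := congrArg (fun p => Polynomial.eval x p) hpoly
  simp only [eval_zero, eval_finset_sum, eval_mul, eval_C, eval_prod] at hev
  rw [Finset.sum_eq_single k (by
    intro b _ hb
    rw [Finset.prod_eq_zero (Finset.mem_erase.2 ⟨hb.symm, Finset.mem_univ k⟩) hx', mul_zero])
    (by simp)] at hev
  have hprod : ∏ j ∈ univ.erase k, (e j).eval x ≠ 0 := by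
    rw [Finset.prod_ne_zero_iff]
    intro j hj
    exact hcop k j (Finset.ne_of_mem_erase hj).symm x hx'
  have hqx : (q k).eval x = 0 := by
    rcases mul_eq_zero.1 hev with h | h
    · rcases mul_eq_zero.1 h with h | h
      · exact absurd h (ha k)
      · exact h
    · exact absurd h hprod
  obtain ⟨w, hw⟩ := dvd_iff_isRoot.2 hqx
  obtain ⟨c, hc0, hc⟩ := deg_one (e k) (he0 k) (hed k) x hx'
  have hcF : algebraMap K F c ≠ 0 := by simpa using hc0
  refine notspan k (C c⁻¹ * w) ?_ ?_
  · refine (natDegree_C_mul_le _ _).trans ?_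
    by_cases hw0 : w = 0
    · rw [hw0]; simp
    · have h3 := hqd k
      rw [hw, natDegree_mul (X_sub_C_ne_zero x) hw0, natDegree_X_sub_C] at h3
      omega
  · have h3 := hey k
    rw [hc, hw, map_mul, map_mul, aeval_C, mul_assoc] at h3
    have h4 := mul_left_cancel₀ (hevX x) h3
    rw [map_mul, aeval_C, map_inv₀, ← h4]
    field_simp

end Pool.Agent.H62.BF
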