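import Pool.Agent.H72.BF.Targets5

open Polynomial Finset Filter
open Pool.Agent.H72.BF

namespace Pool.Agent.H62.BF

/-- many specialisations with different first coordinates -/
theorem spt_points (hSPC : T_SPC) (K F : Type) [Field K] [IsAlgClosed K] [Field F] [Algebra K F]
    (t : F) (ht : Transcendental K t) (m : ℕ) (w : Fin m → F) (n : ℕ) :
    ∃ a : Fin n → Fin (m + 1) → K, (∀ i, ∀ g : MvPolynomial (Fin (m + 1)) K,
      MvPolynomial.aeval (Fin.cons t w : Fin (m + 1) → F) g = 0 → MvPolynomial.eval (a i) g = 0) ∧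
      Function.Injective (fun i => a i 0) := by
  induction n with
  | zero => exact ⟨fun i => i.elim0, fun i => i.elim0, fun i => i.elim0⟩
  | succ n ih =>
    obtain ⟨a, ha, hinj⟩ := ih
    have hf : MvPolynomial.aeval (Fin.cons t w : Fin (m + 1) → F)
        (∏ i, (MvPolynomial.X 0 - MvPolynomial.C (a i 0)) : MvPolynomial (Fin (m + 1)) K) ≠ 0 := by
      rw [map_prod, Finset.prod_ne_zero_iff]
      intro i _
      rw [map_sub, MvPolynomial.aeval_X, MvPolynomial.aeval_C, Fin.cons_zero, sub_ne_zero]
      intro h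
      exact ht (by rw [h]; exact isAlgebraic_algebraMap _)
    obtain ⟨b, hb1, hb2⟩ := hSPC K F (m + 1) (Fin.cons t w) _ hf
    have hne : ∀ i, b 0 ≠ a i 0 := by
      rw [map_prod, Finset.prod_ne_zero_iff] at hb2
      intro i h
      have h1 := hb2 i (Finset.mem_univ _)
      rw [map_sub, MvPolynomial.eval_X, MvPolynomial.eval_C, h, sub_self] at h1
      exact h1 rfl
    refine ⟨Fin.cons b a, ?_, ?_⟩
    · intro i
      refine Fin.cases ?_ (fun i => ?_) i
      · rw [Fin.cons_zero]; exact hb1
      · rw [Fin.cons_succ]; exact ha i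
    · intro i j
      refine Fin.cases ?_ (fun i => ?_) i <;> refine Fin.cases ?_ (fun j => ?_) j
      · intro _; rfl
      · intro h
        simp only [Fin.cons_zero, Fin.cons_succ] at h
        exact absurd h (hne j)
      · intro h
        simp only [Fin.cons_zero, Fin.cons_succ] at h
        exact absurd h.symm (hne i)
      · intro h
        simp only [Fin.cons_succ] at h
        rw [hinj h]

theorem spt (hSPC : T_SPC) : T_SPT := by
  classical
  intro K F _ _ _ _ _ t ht d W hW hrel
  by_contra hcon
  push Not at hcon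
  set m := Module.finrank K W with hm
  let bas := Module.finBasis K W
  let w : Fin m → F := fun k => (bas k : F)
  have hwli : LinearIndependent K w :=
    bas.linearIndependent.map' W.subtype (Submodule.ker_subtype W)
  have hwW : ∀ k, w k ∈ W := fun k => (bas k).2
  obtain ⟨a, ha, hinj⟩ := spt_points hSPC K F t ht m w (d + 1)
  -- a combination vanishing at all points
  let L : (Fin m → K) →ₗ[K] (Fin (d + 1) → K) :=
    LinearMap.pi fun i => ∑ k, (a i k.succ) • LinearMap.proj k
  have hL : ∀ c i, L c i = ∑ k, a i k.succ * c k := by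
    intro c i
    simp [L, LinearMap.pi_apply, LinearMap.sum_apply]
  have hker : LinearMap.ker L ≠ ⊥ := by
    apply LinearMap.ker_ne_bot_of_finrank_lt
    simp only [Module.finrank_fin_fun]
    exact hcon
  obtain ⟨c, hc, hc0⟩ := (Submodule.ne_bot_iff _).mp hker
  rw [LinearMap.mem_ker] at hc
  have hci : ∀ i, ∑ k, a i k.succ * c k = 0 := by
    intro i
    rw [← hL, hc]; rfl
  set z : F := ∑ k, c k • w k with hz
  have hzW : z ∈ W := Submodule.sum_mem _ fun k _ => W.smul_mem _ (hwW k)
  have hz0 : z ≠ 0 := by
    intro h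
    apply hc0
    ext k
    exact (Fintype.linearIndependent_iff.mp hwli) c h k
  obtain ⟨Q, hQ0, hQd, hQz⟩ := hrel z hzW
  have hQe : MvPolynomial.aeval ![t, z] Q =
      ∑ μ ∈ Q.support, algebraMap K F (Q.coeff μ) * (t ^ μ 0 * z ^ μ 1) := by
    rw [MvPolynomial.aeval_def, MvPolynomial.eval₂_eq']
    refine Finset.sum_congr rfl fun μ _ => ?_
    rw [Fin.prod_univ_two]
    rfl
  -- the lowest power of the second variable
  have hsupp : Q.support.Nonempty := by
    rw [Finset.nonempty_iff_ne_empty, Ne, MvPolynomial.support_eq_empty]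
    exact hQ0
  obtain ⟨m0, hm0, hmin⟩ := Q.support.exists_min_image (fun μ => μ 1) hsupp
  set e := m0 1 with he
  have hdeg : ∀ μ ∈ Q.support, μ 0 + μ 1 ≤ d := by
    intro μ hμ
    have h1 := MvPolynomial.le_totalDegree hμ
    rw [Finsupp.sum_fintype _ _ (fun _ => rfl), Fin.sum_univ_two] at h1
    omega
  let q : K[X] := ∑ μ ∈ Q.support.filter (fun μ => μ 1 = e), monomial (μ 0) (Q.coeff μ)
  have hq0 : q ≠ 0 := by
    intro h
    have h1 : q.coeff (m0 0) = Q.coeff m0 := by
      simp only [q]
      rw [Polynomial.finset_sum_coeff, Finset.sum_eq_single m0]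
      · rw [Polynomial.coeff_monomial, if_pos rfl]
      · intro μ hμ hne
        rw [Finset.mem_filter] at hμ
        rw [Polynomial.coeff_monomial, if_neg]
        intro h2
        apply hne
        ext i
        fin_cases i
        · exact h2
        · exact hμ.2
      · intro h2
        exact absurd (Finset.mem_filter.mpr ⟨hm0, he.symm⟩ :
          m0 ∈ Q.support.filter (fun μ => μ 1 = e)) h2
    rw [h, Polynomial.coeff_zero] at h1
    exact (MvPolynomial.mem_support_iff.mp hm0) h1.symm
  have hqd : q.natDegree ≤ d := by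
    apply Polynomial.natDegree_sum_le_of_forall_le
    intro μ hμ
    rw [Finset.mem_filter] at hμ
    refine le_trans (Polynomial.natDegree_monomial_le _) ?_
    have := hdeg μ hμ.1
    omega
  let g : MvPolynomial (Fin (m + 1)) K := ∑ μ ∈ Q.support, MvPolynomial.C (Q.coeff μ) *
    MvPolynomial.X 0 ^ (μ 0) * (∑ k : Fin m, MvPolynomial.C (c k) * MvPolynomial.X k.succ) ^
      (μ 1 - e)
  have hgy : MvPolynomial.aeval (Fin.cons t w : Fin (m + 1) → F) g = 0 := by
    have h1 : z ^ e * MvPolynomial.aeval (Fin.cons t w : Fin (m + 1) → F) g = 0 := by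
      rw [← hQz, hQe]
      simp only [g]
      rw [map_sum, Finset.mul_sum]
      refine Finset.sum_congr rfl fun μ hμ => ?_
      rw [map_mul, map_mul, map_pow, map_pow, map_sum, MvPolynomial.aeval_C,
        MvPolynomial.aeval_X, Fin.cons_zero]
      have h2 : ∑ k : Fin m, MvPolynomial.aeval (Fin.cons t w : Fin (m + 1) → F)
          (MvPolynomial.C (c k) * MvPolynomial.X k.succ : MvPolynomial (Fin (m + 1)) K) = z := by
        rw [hz]
        refine Finset.sum_congr rfl fun k _ => ?_
        rw [map_mul, MvPolynomial.aeval_C, MvPolynomial.aeval_X, Fin.cons_succ,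
          Algebra.smul_def]
      rw [h2]
      have h3 : μ 1 = e + (μ 1 - e) := by
        have h5 : m0 1 ≤ μ 1 := hmin μ hμ
        omega
      have h6 : z ^ (μ 1) = z ^ e * z ^ (μ 1 - e) := by rw [← pow_add, ← h3]
      rw [h6]
      ring
    rcases mul_eq_zero.mp h1 with h | h
    · exact absurd h (pow_ne_zero e hz0)
    · exact h
  have hroot : ∀ i, q.eval (a i 0) = 0 := by
    intro i
    have h1 := ha i g hgy
    simp only [g] at h1
    rw [map_sum] at h1
    rw [← h1]
    simp only [q]
    rw [Polynomial.eval_finset_sum, Finset.sum_filter]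
    refine Finset.sum_congr rfl fun μ hμ => ?_
    rw [map_mul, map_mul, map_pow, map_pow, map_sum, MvPolynomial.eval_C, MvPolynomial.eval_X]
    have h2 : ∑ k : Fin m, MvPolynomial.eval (a i)
        (MvPolynomial.C (c k) * MvPolynomial.X k.succ : MvPolynomial (Fin (m + 1)) K) = 0 := by
      rw [← hci i]
      refine Finset.sum_congr rfl fun k _ => ?_
      rw [map_mul, MvPolynomial.eval_C, MvPolynomial.eval_X, mul_comm]
    rw [h2]
    by_cases h3 : μ 1 = e
    · rw [if_pos h3, h3, Nat.sub_self, pow_zero, mul_one, Polynomial.eval_monomial]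
    · rw [if_neg h3, zero_pow, mul_zero]
      have h5 : m0 1 ≤ μ 1 := hmin μ hμ
      omega
  have hcard : d + 1 ≤ q.roots.toFinset.card := by
    have h1 : (Finset.univ.image (fun i : Fin (d + 1) => a i 0)) ⊆ q.roots.toFinset := by
      intro x hx
      obtain ⟨i, _, rfl⟩ := Finset.mem_image.mp hx
      rw [Multiset.mem_toFinset, Polynomial.mem_roots hq0]
      exact hroot i
    have h2 := Finset.card_le_card h1
    rw [Finset.card_image_of_injective _ hinj, Finset.card_univ, Fintype.card_fin] at h2
    exact h2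
  have h1 := Multiset.toFinset_card_le q.roots
  have h2 := Polynomial.card_roots' q
  omega

end Pool.Agent.H62.BF
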